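import Pool.Agent.H607.Pw.Fam
import Pool.Agent.H607.Sp.Rich
import Mathlib

/-!
# Sequences `lam α ^ n`, where `α` is a rational power of `b`
-/

set_option autoImplicit false

namespace Pool.Agent.H607.Pw

open Finset Filter Topology MeasureTheory
open Pool.Agent.W206.ND (ee)
open Pool.Agent.H607 Pool.Agent.H607.Mix Pool.Agent.H607.Sp

lemma fr_mul {b : ℕ} (hb : 2 ≤ b) {z : ℝ} (hz : 0 < z) (q : ℤ) : fr b (z * (b : ℝ) ^ q) = fr b z := by
  have hb0 : (0 : ℝ) < b := by exact_mod_cast (by omega : 0 < b)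
  have h1 : Int.log b (z * (b : ℝ) ^ q) = Int.log b z + q := by
    have h2 := Int.zpow_log_le_self (by omega : 1 < b) hz
    have h3 := Int.lt_zpow_succ_log_self (by omega : 1 < b) z
    have hzq : 0 < z * (b : ℝ) ^ q := by positivity
    apply le_antisymm
    · have h4 : z * (b : ℝ) ^ q < (b : ℝ) ^ (Int.log b z + q + 1) := by
        rw [add_right_comm, zpow_add₀ hb0.ne']
        gcongr
      have h5 := (Int.lt_zpow_iff_log_lt (by omega : 1 < b) hzq).1 h4
      omega
    · rw [← Int.zpow_le_iff_le_log (by omega : 1 < b) hzq, zpow_add₀ hb0.ne']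
      gcongr
  unfold fr
  rw [h1, zpow_add₀ hb0.ne']
  field_simp

lemma liou_mul_rat {x : ℝ} {r : ℚ} (hr : r ≠ 0) : Liouville (x * r) ↔ Liouville x := by
  rw [← forall_liouvilleWith_iff, ← forall_liouvilleWith_iff]
  exact forall_congr' fun p => LiouvilleWith.mul_rat_iff hr

lemma liou_neg {x : ℝ} : Liouville (-x) ↔ Liouville x := by
  rw [← forall_liouvilleWith_iff, ← forall_liouvilleWith_iff]
  exact forall_congr' fun p => LiouvilleWith.neg_iff

/-- one class of exponents -/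
lemma good_one {b : ℕ} (hb : 2 ≤ b) {z : ℝ} (hirr : Irrational z) (hL : ¬ Liouville z) :
    ∀ᶠ n : ℕ in atTop, 200 * (b : ℝ) ^ 2 * Real.log n / Real.log (Real.log n) ≤
      GG b (fr b z) ⌊(n : ℝ) / (Real.log n) ^ 4⌋₊ := by
  have hb0 : (0 : ℝ) < b := by exact_mod_cast (by omega : 0 < b)
  set r : ℚ := ((b : ℚ) ^ (Int.log b z))⁻¹ with hr
  have hbq : (b : ℚ) ≠ 0 := by exact_mod_cast (by omega : b ≠ 0)
  have hr0 : r ≠ 0 := by positivity
  have hfr : fr b z = z * r := by
    unfold fr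
    rw [hr]
    push_cast
    rw [div_eq_mul_inv]
  have h1 : Irrational (fr b z) := by
    rw [hfr]
    exact hirr.mul_ratCast hr0
  have h2 : ¬ Liouville (fr b z) := by
    rw [hfr, liou_mul_rat hr0]
    exact hL
  obtain ⟨c, hc, hG⟩ := gg_liou hb h1 h2 (h := 1) one_ne_zero
  simp only [Int.cast_one, one_mul, pow_one, pow_zero, div_one] at hG
  have hDt : Tendsto (fun n : ℕ => ⌊(n : ℝ) / (Real.log n) ^ 4⌋₊) atTop atTop := by
    have h3 : Tendsto (fun n : ℕ => ⌊Real.sqrt n⌋₊) atTop atTop :=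
      tendsto_nat_floor_atTop.comp (Real.tendsto_sqrt_atTop.comp tendsto_natCast_atTop_atTop)
    refine tendsto_atTop_mono' atTop ?_ h3
    filter_upwards [pow_log_sqrt 4 1, tend_log.eventually_ge_atTop 1, eventually_ge_atTop 1] with n h4 h5 h6
    apply Nat.floor_le_floor
    have hn0 : (0 : ℝ) < n := by exact_mod_cast h6
    rw [le_div_iff₀ (by positivity)]
    calc Real.sqrt n * (Real.log n) ^ 4 ≤ Real.sqrt n * Real.sqrt n := by
          gcongr
          linarith
      _ = n := Real.mul_self_sqrt hn0.le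
  filter_upwards [hDt.eventually hG, pow_log_sqrt 4 1, tend_log.eventually_ge_atTop 1,
    tend_loglog.eventually_ge_atTop (800 * (b : ℝ) ^ 2 / c + 1),
    (Real.tendsto_sqrt_atTop.comp tendsto_natCast_atTop_atTop).eventually_ge_atTop 16,
    eventually_ge_atTop 3] with n h3 h4 h5 h6 h7 h8
  simp only [Function.comp_apply] at h7
  have hn0 : (0 : ℝ) < n := by exact_mod_cast (by omega : 0 < n)
  have hsq : Real.sqrt n * Real.sqrt n = n := Real.mul_self_sqrt hn0.le
  refine le_trans ?_ h3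
  set D := ⌊(n : ℝ) / (Real.log n) ^ 4⌋₊ with hD
  have hD1 : Real.sqrt n / 2 ≤ D := by
    have h9 : Real.sqrt n ≤ (n : ℝ) / (Real.log n) ^ 4 := by
      rw [le_div_iff₀ (by positivity)]
      calc Real.sqrt n * (Real.log n) ^ 4 ≤ Real.sqrt n * Real.sqrt n := by
            gcongr
            linarith
        _ = n := hsq
    have h10 := Nat.lt_floor_add_one ((n : ℝ) / (Real.log n) ^ 4)
    linarith
  have hlogsq : Real.log (Real.sqrt n) = Real.log n / 2 := Real.log_sqrt hn0.le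
  have hlogD : Real.log n / 4 ≤ Real.log D := by
    have h9 := Real.log_le_log (by positivity) hD1
    rw [Real.log_div (by positivity) (by norm_num), hlogsq] at h9
    have h10 := Real.log_two_lt_d9
    have h11 : Real.log 16 ≤ Real.log (Real.sqrt n) := Real.log_le_log (by norm_num) h7
    rw [hlogsq] at h11
    have h12 : Real.log 16 = 4 * Real.log 2 := by
      rw [show (16 : ℝ) = 2 ^ 4 by norm_num, Real.log_pow]
      norm_num
    have h13 := Real.log_two_gt_d9
    linarith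
  have hll : 0 < Real.log (Real.log n) := by
    have : 0 < 800 * (b : ℝ) ^ 2 / c := by positivity
    linarith
  rw [div_le_iff₀ hll]
  have h9 : 800 * (b : ℝ) ^ 2 / c ≤ Real.log (Real.log n) := by linarith
  rw [div_le_iff₀ hc] at h9
  have hln : 0 < Real.log n := by linarith
  calc 200 * (b : ℝ) ^ 2 * Real.log n = 800 * (b : ℝ) ^ 2 * (Real.log n / 4) := by ring
    _ ≤ (Real.log (Real.log n) * c) * Real.log D := by gcongr
    _ = c * Real.log D * Real.log (Real.log n) := by ring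

/-- **Almost sure equidistribution**, in the case that `α` is a rational power of `b`. -/
theorem as_pow_rat {b : ℕ} (hb : 2 ≤ b) {α : ℝ} (hα : 1 < α) {p : ℕ} (hp : 1 ≤ p) {q : ℤ}
    (hpq : α ^ p = (b : ℝ) ^ q) {lam : ℝ} (hlam : ∀ j < p, Irrational (lam * α ^ j) ∧ ¬ Liouville (lam * α ^ j))
    {C₀ η : ℝ}
    (hη : 0 < η) (t c : ℕ → ℝ) (ht : ∀ n, |t n - lam * α ^ n| ≤ C₀ * (α ^ n * Real.exp (-(η * n))))
    [∀ i, NeZero (wg 1 2 i)] :
    ∀ᵐ ω ∂(unif (wg 1 2)), Tendsto (fun N : ℕ =>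
      SS (fun n => t n * YY (wg 1 2) b ω + c n) N / (N : ℂ)) atTop (𝓝 0) := by
  classical
  have hα0 : 0 < α := by linarith
  have hlam0 : lam ≠ 0 := by
    intro h0
    have h1 := (hlam 0 (by omega)).1
    rw [h0, zero_mul] at h1
    exact h1 ⟨0, by simp⟩
  have hl0 : 0 < |lam| := abs_pos.2 hlam0
  have habs : ∀ j < p, Irrational (|lam| * α ^ j) ∧ ¬ Liouville (|lam| * α ^ j) := by
    intro j hj
    obtain ⟨h1, h2⟩ := hlam j hj
    rcases abs_choice lam with h3 | h3
    · rw [h3]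
      exact ⟨h1, h2⟩
    · rw [h3, neg_mul]
      refine ⟨?_, ?_⟩
      · rw [irrational_neg_iff]
        exact h1
      · rw [liou_neg]
        exact h2
  have hgood : ∀ᶠ n : ℕ in atTop, Gd b |lam| α n := by
    have h1 : ∀ᶠ n : ℕ in atTop, ∀ j : Fin p, 200 * (b : ℝ) ^ 2 * Real.log n / Real.log (Real.log n) ≤
        GG b (fr b (|lam| * α ^ (j : ℕ))) ⌊(n : ℝ) / (Real.log n) ^ 4⌋₊ := by
      rw [eventually_all]
      intro j
      exact good_one hb (habs j j.2).1 (habs j j.2).2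
    filter_upwards [h1] with n hn
    have h2 := hn ⟨n % p, Nat.mod_lt _ (by omega)⟩
    unfold Gd
    have h4 : α ^ n = α ^ (n % p) * (b : ℝ) ^ (q * ((n / p : ℕ) : ℤ)) := by
      rw [zpow_mul, zpow_natCast, ← hpq, ← pow_mul, ← pow_add, Nat.mod_add_div]
    have h3 : |lam| * α ^ n = |lam| * α ^ (n % p) * (b : ℝ) ^ (q * ((n / p : ℕ) : ℤ)) := by
      rw [h4]
      ring
    rw [h3, fr_mul hb (by positivity)]
    exact h2
  refine as_good (fun n ω => t n * YY (wg 1 2) b ω + c n)
    (fun n => ((YY_meas (wg 1 2) b hb).const_mul (t n)).add_const _) (Gd b |lam| α) ?_ ?_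
  · obtain ⟨M, hM⟩ := eventually_atTop.1 hgood
    have h1 : Tendsto (fun N : ℕ => (M : ℝ) / N) atTop (𝓝 0) :=
      tendsto_const_div_atTop_nhds_zero_nat _
    refine squeeze_zero (fun N => by positivity) (fun N => ?_) h1
    gcongr
    calc ((range N).filter (fun n => ¬ Gd b |lam| α n)).card ≤ (range M).card := by
          apply card_le_card
          intro n hn
          rw [mem_filter] at hn
          rw [mem_range]
          by_contra hcon
          exact hn.2 (hM n (by omega))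
      _ = M := card_range M
  · filter_upwards [pcorr hb hα hlam0 hη t ht] with n' h1 hgd n hn hR
    have h2 := h1 hgd n hn hR
    have e1 : ∀ ω, ee ((t n' * YY (wg 1 2) b ω + c n') - (t n * YY (wg 1 2) b ω + c n)) =
        ee (c n' - c n) * ee ((t n' - t n) * YY (wg 1 2) b ω) := by
      intro ω
      rw [← ee_add]
      congr 1
      ring
    simp only [e1]
    rw [integral_const_mul, norm_mul, ee_norm, one_mul]
    exact h2

/-- **Almost sure equidistribution** along the powers of integers. -/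
theorem as_base {b c : ℕ} (hb : 2 ≤ b) (hc : 2 ≤ c) {lam : ℝ} (hirr : Irrational lam) (hL : ¬ Liouville lam)
    {C₀ η : ℝ} (hη : 0 < η) (t s : ℕ → ℝ)
    (ht : ∀ n, |t n - lam * (c : ℝ) ^ n| ≤ C₀ * ((c : ℝ) ^ n * Real.exp (-(η * n))))
    [∀ i, NeZero (wg 1 2 i)] :
    ∀ᵐ ω ∂(unif (wg 1 2)), Tendsto (fun N : ℕ =>
      SS (fun n => t n * YY (wg 1 2) b ω + s n) N / (N : ℂ)) atTop (𝓝 0) := by
  have hc1 : (1 : ℝ) < c := by exact_mod_cast (by omega : 1 < c)
  by_cases h : ∀ p : ℕ, 1 ≤ p → ∀ q : ℤ, (c : ℝ) ^ p ≠ (b : ℝ) ^ q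
  · refine as_pow hb hc1 h ?_ hη t s ht
    rintro rfl
    exact hirr ⟨0, by simp⟩
  · push Not at h
    obtain ⟨p, hp, q, hpq⟩ := h
    refine as_pow_rat hb hc1 hp hpq (fun j _ => ?_) hη t s ht
    have hq : ((c ^ j : ℕ) : ℚ) ≠ 0 := by
      have : c ^ j ≠ 0 := by positivity
      exact_mod_cast this
    have e1 : lam * (c : ℝ) ^ j = lam * (((c ^ j : ℕ) : ℚ) : ℝ) := by
      push_cast
      rfl
    rw [e1]
    refine ⟨hirr.mul_ratCast hq, ?_⟩
    rw [liou_mul_rat hq]
    exact hL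

end Pool.Agent.H607.Pw
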