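import Pool.Agent.H607.Pw.Base
import Mathlib

/-!
# Several bases at once
-/

set_option autoImplicit false

namespace Pool.Agent.H607.Pw

open Finset Filter Topology MeasureTheory
open Pool.Agent.W206.ND (ee)
open Pool.Agent.H607 Pool.Agent.H607.Mix Pool.Agent.H607.Sp

theorem as_bases {b : ℕ} (hb : 2 ≤ b) {r k : ℕ} (B : Fin r → ℕ) (hB : ∀ i, 2 ≤ B i)
    (hinj : Function.Injective B) (x c : Fin r → Fin k → ℝ)
    (hx : ∀ i, ∀ h : Fin k → ℤ, h ≠ 0 → Irrational (∑ j, (h j : ℝ) * x i j) ∧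
      ¬ Liouville (∑ j, (h j : ℝ) * x i j))
    (g : Fin r × Fin k → ℤ) (hg : g ≠ 0) [∀ i, NeZero (wg 1 2 i)] :
    ∀ᵐ ω ∂(unif (wg 1 2)), Tendsto (fun N : ℕ =>
      SS (fun n => ∑ p, (g p : ℝ) * ((x p.1 p.2 * YY (wg 1 2) b ω + c p.1 p.2) * (B p.1 : ℝ) ^ n)) N / (N : ℂ))
      atTop (𝓝 0) := by
  classical
  set lam : Fin r → ℝ := fun i => ∑ j, (g (i, j) : ℝ) * x i j with hlam
  have hlam0 : ∀ i, lam i ≠ 0 ↔ (fun j => g (i, j)) ≠ 0 := by
    intro i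
    constructor
    · intro h1 h2
      apply h1
      rw [hlam]
      refine sum_eq_zero fun j _ => ?_
      have h3 : g (i, j) = 0 := congrFun h2 j
      rw [h3, Int.cast_zero, zero_mul]
    · intro h1 h2
      have h3 := (hx i _ h1).1
      have h4 : ∑ j, ((g (i, j) : ℤ) : ℝ) * x i j = 0 := h2
      rw [h4] at h3
      exact h3 ⟨0, by simp⟩
  have hne : ∃ i, lam i ≠ 0 := by
    obtain ⟨p, hp⟩ := Function.ne_iff.1 hg
    refine ⟨p.1, (hlam0 p.1).2 fun h0 => hp ?_⟩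
    exact congrFun h0 p.2
  obtain ⟨i₀, hi₀, C₀, η, hη, hdom⟩ := dominating (fun i => (B i : ℝ)) lam
    (fun i => by exact_mod_cast (by have := hB i; omega : 1 < B i))
    (fun i j hij => hinj (by
      have h5 : (B i : ℝ) = B j := hij
      exact_mod_cast h5)) hne
  obtain ⟨h1, h2⟩ := hx i₀ _ ((hlam0 i₀).1 hi₀)
  have h3 := as_base hb (hB i₀) h1 h2 hη (fun n => ∑ i, lam i * (B i : ℝ) ^ n)
    (fun n => ∑ p : Fin r × Fin k, (g p : ℝ) * (c p.1 p.2 * (B p.1 : ℝ) ^ n)) hdom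
  filter_upwards [h3] with ω hω
  refine hω.congr fun N => ?_
  congr 2
  funext n
  simp only [add_mul, mul_add]
  rw [sum_add_distrib]
  congr 1
  rw [Fintype.sum_prod_type, sum_mul]
  refine sum_congr rfl fun i _ => ?_
  rw [hlam]
  beta_reduce
  rw [sum_mul, sum_mul]
  exact sum_congr rfl fun j _ => by ring

/-- digit matrices in several bases -/
theorem digits_of_equid {r k : ℕ} (B : Fin r → ℕ) (hB : ∀ i, 2 ≤ B i) (z : Fin r → Fin k → ℝ)
    (h : Equid (fun n (p : Fin r × Fin k) => z p.1 p.2 * (B p.1 : ℝ) ^ n)) (m : ℕ)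
    (D : (i : Fin r) → Fin k → Fin m → Fin (B i)) :
    Tendsto (fun N : ℕ => ({n : ℕ | n < N ∧ ∀ (i : Fin r) (j : Fin k) (t : Fin m),
      ⌊z i j * (B i : ℝ) ^ (n + 1 + (t : ℕ))⌋ % (B i : ℤ) = ((D i j t : ℕ) : ℤ)}.ncard : ℝ) / N)
      atTop (𝓝 (∏ i, 1 / (B i : ℝ) ^ (m * k))) := by
  classical
  choose a ha hbox using fun i => Pool.Agent.W92.ND.DM.main Pool.Agent.W856.ND.DG.main (B i) k m (D i) (hB i)
  have hB0 : ∀ i, (0 : ℝ) < 1 / (B i : ℝ) ^ m := fun i => by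
    have : (0 : ℝ) < B i := by exact_mod_cast (by have := hB i; omega : 0 < B i)
    positivity
  have h1 := h (fun p => a p.1 p.2) (fun p => a p.1 p.2 + 1 / (B p.1 : ℝ) ^ m)
    (fun p => ⟨(ha p.1 p.2).1, by linarith [hB0 p.1], (ha p.1 p.2).2⟩)
  have hprod : ∏ p : Fin r × Fin k, ((a p.1 p.2 + 1 / (B p.1 : ℝ) ^ m) - a p.1 p.2) =
      ∏ i, 1 / (B i : ℝ) ^ (m * k) := by
    have e : ∀ p : Fin r × Fin k, (a p.1 p.2 + 1 / (B p.1 : ℝ) ^ m) - a p.1 p.2 = 1 / (B p.1 : ℝ) ^ m :=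
      fun p => by ring
    rw [prod_congr rfl fun p _ => e p, Fintype.prod_prod_type]
    refine prod_congr rfl fun i _ => ?_
    simp only [prod_const, card_univ, Fintype.card_fin]
    rw [one_div_pow, ← pow_mul]
  rw [hprod] at h1
  refine h1.congr fun N => ?_
  congr 2
  congr 1
  ext n
  simp only [Set.mem_ofPred_eq]
  refine and_congr_right fun _ => ?_
  constructor
  · intro h2 i
    exact (hbox i (z i) n).2 fun j => h2 (i, j)
  · intro h2 p
    exact (hbox p.1 (z p.1) n).1 (h2 p.1) p.2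

end Pool.Agent.H607.Pw
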