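import Pool.Agent.H607.Mix.Gen
import Pool.Agent.H607.Weyl
import Mathlib

/-!
# Weyl's criterion for families indexed by a finite type
-/

set_option autoImplicit false

namespace Pool.Agent.H607.Pw

open Finset Filter Topology
open Pool.Agent.W206.ND (ee)
open Pool.Agent.H607 Pool.Agent.H607.Mix

/-- The sequence `s 0, s 1, …` of points of `ℝ ^ ι` is equidistributed modulo one: every box has the
right frequency. -/
def Equid {ι : Type} [Fintype ι] (s : ℕ → ι → ℝ) : Prop :=
  ∀ u v : ι → ℝ, (∀ i, 0 ≤ u i ∧ u i ≤ v i ∧ v i ≤ 1) →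
    Tendsto (fun N : ℕ => ({n : ℕ | n < N ∧ ∀ i, u i ≤ Int.fract (s n i) ∧
      Int.fract (s n i) < v i}.ncard : ℝ) / N) atTop (𝓝 (∏ i, (v i - u i)))

theorem equid_of_weyl {ι : Type} [Fintype ι] (s : ℕ → ι → ℝ)
    (h : ∀ g : ι → ℤ, g ≠ 0 → Tendsto (fun N : ℕ =>
      SS (fun n => ∑ i, (g i : ℝ) * s n i) N / (N : ℂ)) atTop (𝓝 0)) : Equid s := by
  classical
  intro u v huv
  set e := Fintype.equivFin ι with he
  have h1 := Pool.Agent.W162.ND.WB.main Pool.Agent.W206.ND.AP.main (Fintype.card ι)
    (fun n j => s n (e.symm j)) (by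
      intro g hg
      have h2 := h (fun i => g (e i)) (by
        intro h0
        apply hg
        funext j
        have := congrFun h0 (e.symm j)
        simpa using this)
      refine h2.congr fun N => ?_
      unfold SS
      congr 1
      refine sum_congr rfl fun n _ => ?_
      congr 1
      beta_reduce
      rw [← Equiv.sum_comp e.symm (fun i => (g (e i) : ℝ) * s n i)]
      exact sum_congr rfl fun j _ => by simp) (fun j => u (e.symm j)) (fun j => v (e.symm j))
    (fun j => huv _)
  have e1 : ∏ j, (v (e.symm j) - u (e.symm j)) = ∏ i, (v i - u i) :=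
    Equiv.prod_comp e.symm (fun i => v i - u i)
  rw [e1] at h1
  refine h1.congr fun N => ?_
  congr 2
  rw [← Set.ncard_coe_finset]
  congr 1
  ext n
  simp only [coe_filter, mem_range, Set.mem_ofPred_eq]
  constructor
  · rintro ⟨h3, h4⟩
    refine ⟨h3, fun i => ?_⟩
    have := h4 (e i)
    simpa using this
  · rintro ⟨h3, h4⟩
    exact ⟨h3, fun j => h4 _⟩

end Pool.Agent.H607.Pw
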