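import Pool.Agent.H607.Pw.PCorr
import Pool.Agent.H607.Pw.Equid
import Mathlib

/-!
# Families of exponential sequences
-/

set_option autoImplicit false

namespace Pool.Agent.H607.Pw

open Finset Filter Topology MeasureTheory
open Pool.Agent.W206.ND (ee)
open Pool.Agent.H607 Pool.Agent.H607.Mix Pool.Agent.H607.Sp

/-- the dominating term of an exponential sum -/
lemma dominating {m : ℕ} (α lam : Fin m → ℝ) (hα : ∀ i, 1 < α i) (hinj : Function.Injective α)
    (hne : ∃ i, lam i ≠ 0) : ∃ i₀, lam i₀ ≠ 0 ∧ ∃ C₀ η : ℝ, 0 < η ∧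
      ∀ n : ℕ, |∑ i, lam i * α i ^ n - lam i₀ * α i₀ ^ n| ≤ C₀ * (α i₀ ^ n * Real.exp (-(η * n))) := by
  classical
  obtain ⟨i₀, hi₀, hmax⟩ := exists_max_image (univ.filter (fun i => lam i ≠ 0)) α (by
    obtain ⟨i, hi⟩ := hne
    exact ⟨i, by rw [mem_filter]; exact ⟨mem_univ _, hi⟩⟩)
  rw [mem_filter] at hi₀
  have hlt : ∀ i, i ≠ i₀ → lam i ≠ 0 → α i < α i₀ := by
    intro i h1 h2
    have h3 := hmax i (by rw [mem_filter]; exact ⟨mem_univ _, h2⟩)
    exact lt_of_le_of_ne h3 fun h4 => h1 (hinj h4)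
  have hev : ∀ᶠ η : ℝ in 𝓝[>] 0, ∀ i, i ≠ i₀ → lam i ≠ 0 → α i ≤ α i₀ * Real.exp (-η) := by
    rw [eventually_all]
    intro i
    by_cases h1 : i ≠ i₀ ∧ lam i ≠ 0
    · have h2 : Tendsto (fun η : ℝ => α i₀ * Real.exp (-η)) (𝓝[>] 0) (𝓝 (α i₀ * Real.exp (-0))) := by
        apply Tendsto.mono_left _ nhdsWithin_le_nhds
        exact (Continuous.tendsto (by fun_prop) 0)
      rw [neg_zero, Real.exp_zero, mul_one] at h2
      filter_upwards [h2.eventually_const_le (hlt i h1.1 h1.2)] with η hη _ _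
      exact hη
    · filter_upwards with η h2 h3
      exact absurd ⟨h2, h3⟩ h1
  obtain ⟨η, hη, hη0⟩ := (hev.and self_mem_nhdsWithin).exists
  refine ⟨i₀, hi₀.2, ∑ i, |lam i|, η, hη0, fun n => ?_⟩
  have hE : 0 < Real.exp (-(η * n)) := Real.exp_pos _
  have h0 : 0 < α i₀ := by linarith [hα i₀]
  have e1 : (α i₀ * Real.exp (-η)) ^ n = α i₀ ^ n * Real.exp (-(η * n)) := by
    rw [mul_pow, ← Real.exp_nat_mul]
    congr 2
    ring
  rw [← add_sum_erase univ _ (mem_univ i₀), add_sub_cancel_left]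
  refine (abs_sum_le_sum_abs _ _).trans ?_
  rw [← add_sum_erase univ (fun i => |lam i|) (mem_univ i₀), add_mul, sum_mul]
  have h1 : ∀ i ∈ univ.erase i₀, |lam i * α i ^ n| ≤ |lam i| * (α i₀ ^ n * Real.exp (-(η * n))) := by
    intro i hi
    rw [mem_erase] at hi
    have h2 : 0 < α i := by linarith [hα i]
    rw [abs_mul, abs_of_pos (by positivity : 0 < α i ^ n)]
    by_cases h3 : lam i = 0
    · rw [h3, abs_zero, zero_mul, zero_mul]
    · have h4 := hη i hi.1 h3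
      rw [← e1]
      gcongr
  have h2 : 0 ≤ |lam i₀| * (α i₀ ^ n * Real.exp (-(η * n))) := by positivity
  linarith [sum_le_sum h1]

theorem as_family {b : ℕ} (hb : 2 ≤ b) {m k : ℕ} (α : Fin m → ℝ) (hα : ∀ i, 1 < α i)
    (hinj : Function.Injective α) (hirr : ∀ i, ∀ p : ℕ, 1 ≤ p → ∀ q : ℤ, α i ^ p ≠ (b : ℝ) ^ q)
    (x : Fin m → Fin k → ℝ) (hlin : ∀ i, LinearIndependent ℚ (x i)) (c : Fin m → Fin k → ℕ → ℝ)
    (g : Fin m × Fin k → ℤ) (hg : g ≠ 0) [∀ i, NeZero (wg 1 2 i)] :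
    ∀ᵐ ω ∂(unif (wg 1 2)), Tendsto (fun N : ℕ =>
      SS (fun n => ∑ p, (g p : ℝ) * (x p.1 p.2 * α p.1 ^ n * YY (wg 1 2) b ω + c p.1 p.2 n)) N / (N : ℂ))
      atTop (𝓝 0) := by
  classical
  set lam : Fin m → ℝ := fun i => ∑ j, (g (i, j) : ℝ) * x i j with hlam
  have hne : ∃ i, lam i ≠ 0 := by
    obtain ⟨p, hp⟩ := Function.ne_iff.1 hg
    refine ⟨p.1, fun h0 => hp ?_⟩
    have h1 := (Fintype.linearIndependent_iff.1 (hlin p.1)) (fun j => (g (p.1, j) : ℚ)) (by
      rw [← h0, hlam]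
      refine sum_congr rfl fun j _ => ?_
      rw [Rat.smul_def, Rat.cast_intCast]) p.2
    have h2 : (g (p.1, p.2) : ℚ) = 0 := h1
    exact_mod_cast h2
  obtain ⟨i₀, hi₀, C₀, η, hη, hdom⟩ := dominating α lam hα hinj hne
  have h1 := as_pow hb (hα i₀) (hirr i₀) hi₀ hη (fun n => ∑ i, lam i * α i ^ n)
    (fun n => ∑ p : Fin m × Fin k, (g p : ℝ) * c p.1 p.2 n) hdom
  filter_upwards [h1] with ω hω
  refine hω.congr fun N => ?_
  congr 2
  funext n
  simp only [mul_add]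
  rw [sum_add_distrib]
  congr 1
  rw [Fintype.sum_prod_type, sum_mul]
  refine sum_congr rfl fun i _ => ?_
  rw [hlam]
  beta_reduce
  rw [sum_mul, sum_mul]
  exact sum_congr rfl fun j _ => by ring

/-- the powers of a transcendental number are linearly independent -/
lemma indep_of_transcendental {x : ℝ} (hx : Transcendental ℚ x) (k : ℕ) :
    LinearIndependent ℚ (fun j : Fin k => x ^ (j : ℕ)) := by
  classical
  rw [Fintype.linearIndependent_iff]
  intro g hg i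
  have h1 : Polynomial.aeval x (∑ j : Fin k, Polynomial.monomial (j : ℕ) (g j)) = 0 := by
    rw [map_sum, ← hg]
    refine sum_congr rfl fun j _ => ?_
    rw [Polynomial.aeval_monomial, Algebra.smul_def]
  have h2 := (transcendental_iff.1 hx) _ h1
  have h3 := congrArg (fun p => Polynomial.coeff p (i : ℕ)) h2
  simp only [Polynomial.finset_sum_coeff, Polynomial.coeff_monomial, Polynomial.coeff_zero] at h3
  rw [sum_eq_single i] at h3
  · simpa using h3
  · intro j _ hj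
    rw [if_neg]
    intro h4
    exact hj (Fin.ext h4)
  · intro h4
    exact absurd (mem_univ i) h4

lemma ne_of_transcendental {x : ℝ} (hx : Transcendental ℚ x) (b : ℕ) (p : ℕ) (hp : 1 ≤ p) (q : ℤ) :
    x ^ p ≠ (b : ℝ) ^ q := by
  intro h
  have h1 : IsAlgebraic ℚ (x ^ p) := by
    rw [h]
    have h2 : ((b : ℝ) ^ q) = algebraMap ℚ ℝ ((b : ℚ) ^ q) := by
      rw [eq_ratCast]
      push_cast
      rfl
    rw [h2]
    exact isAlgebraic_algebraMap _
  exact hx (h1.of_pow (by omega))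

end Pool.Agent.H607.Pw
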