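import Pool.Agent.H607.Pw.Height
import Pool.Agent.H607.Sp.BCorr
import Mathlib

/-!
# The leading digits of `l α ^ n`
-/

set_option autoImplicit false

namespace Pool.Agent.H607.Pw

open Finset Filter Topology
open Pool.Agent.H607.Sp (Far GG GG_mono)

/-- the leading digits of `z`: `z` divided by the largest power of `b` which is at most `z` -/
noncomputable def fr (b : ℕ) (z : ℝ) : ℝ := z / (b : ℝ) ^ (Int.log b z)

lemma fr_ge {b : ℕ} (hb : 2 ≤ b) {z : ℝ} (hz : 0 < z) : 1 ≤ fr b z := by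
  have hb0 : (0 : ℝ) < b := by exact_mod_cast (by omega : 0 < b)
  unfold fr
  rw [one_le_div (by positivity)]
  exact Int.zpow_log_le_self (by omega) hz

lemma fr_lt {b : ℕ} (hb : 2 ≤ b) (z : ℝ) : fr b z < b := by
  have hb0 : (0 : ℝ) < b := by exact_mod_cast (by omega : 0 < b)
  unfold fr
  rw [div_lt_iff₀ (by positivity)]
  have h := Int.lt_zpow_succ_log_self (by omega : 1 < b) z
  rw [zpow_add_one₀ hb0.ne'] at h
  linarith

lemma gapv {b : ℕ} (hb : 2 ≤ b) {x : ℝ} (hx1 : 1 ≤ x) (hxb : x < b) {s S : ℕ} (hsS : s < S)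
    (h : ∀ k, s ≤ k → k < S → ¬ Far b x k) :
    ∃ t : ℕ, 1 ≤ t ∧ t ≤ b ^ (s + 1) ∧ |Real.log ((t : ℝ) / (b : ℝ) ^ s) - Real.log x| ≤ 1 / (b : ℝ) ^ S := by
  have hb0 : (0 : ℝ) < b := by exact_mod_cast (by omega : 0 < b)
  have hb2 : (2 : ℝ) ≤ b := by exact_mod_cast hb
  have hnf : ∀ k, s ≤ k → k < S → ∃ z : ℤ, |(b : ℝ) ^ k * x - z| < 1 / (2 * b) := by
    intro k h1 h2
    have h3 := h k h1 h2
    unfold Far at h3
    push Not at h3
    exact h3
  obtain ⟨z₀, hz₀⟩ := hnf s le_rfl hsS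
  have hq : 1 / (2 * (b : ℝ)) ≤ 1 / 4 := one_div_le_one_div_of_le (by norm_num) (by linarith)
  have hq0 : 0 < 1 / (2 * (b : ℝ)) := by positivity
  have hind : ∀ j, s + j < S → |(b : ℝ) ^ (s + j) * x - (b : ℝ) ^ j * z₀| < 1 / (2 * b) := by
    intro j
    induction j with
    | zero =>
      intro _
      simpa using hz₀
    | succ j ih =>
      intro hj
      have h1 := ih (by omega)
      obtain ⟨z, hz⟩ := hnf (s + (j + 1)) (by omega) hj
      have h2 : |(b : ℝ) ^ (s + (j + 1)) * x - (b : ℝ) ^ (j + 1) * z₀| < 1 / 2 := by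
        have e1 : (b : ℝ) ^ (s + (j + 1)) * x - (b : ℝ) ^ (j + 1) * z₀ =
            b * ((b : ℝ) ^ (s + j) * x - (b : ℝ) ^ j * z₀) := by
          rw [← add_assoc, pow_succ, pow_succ]
          ring
        rw [e1, abs_mul, abs_of_pos hb0]
        calc (b : ℝ) * |(b : ℝ) ^ (s + j) * x - (b : ℝ) ^ j * z₀| < b * (1 / (2 * b)) :=
              mul_lt_mul_of_pos_left h1 hb0
          _ = 1 / 2 := by field_simp
      have h3 : z = (b : ℤ) ^ (j + 1) * z₀ := by
        have h4 : |(z : ℝ) - ((b : ℤ) ^ (j + 1) * z₀ : ℤ)| < 1 := by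
          have h5 := abs_sub_le (z : ℝ) ((b : ℝ) ^ (s + (j + 1)) * x) (((b : ℤ) ^ (j + 1) * z₀ : ℤ) : ℝ)
          have h6 := abs_sub_comm (z : ℝ) ((b : ℝ) ^ (s + (j + 1)) * x)
          push_cast at h5 ⊢
          linarith
        have h5 : |z - (b : ℤ) ^ (j + 1) * z₀| < 1 := by exact_mod_cast h4
        have h6 := Int.abs_lt_one_iff.1 h5
        linarith
      rw [h3] at hz
      push_cast at hz
      exact hz
  have h1 := hind (S - 1 - s) (by omega)
  have e1 : s + (S - 1 - s) = S - 1 := by omega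
  rw [e1] at h1
  have hbs : (0 : ℝ) < (b : ℝ) ^ s := by positivity
  have hbS : (0 : ℝ) < (b : ℝ) ^ S := by positivity
  have h2 : |x - z₀ / (b : ℝ) ^ s| < 1 / (2 * (b : ℝ) ^ S) := by
    have e2 : x - z₀ / (b : ℝ) ^ s = ((b : ℝ) ^ (S - 1) * x - (b : ℝ) ^ (S - 1 - s) * z₀) / (b : ℝ) ^ (S - 1) := by
      have e3 : (b : ℝ) ^ (S - 1) = (b : ℝ) ^ (S - 1 - s) * (b : ℝ) ^ s := by
        rw [← pow_add]
        congr 1
        omega
      rw [e3]
      field_simp
    rw [e2, abs_div, abs_of_pos (by positivity : (0 : ℝ) < (b : ℝ) ^ (S - 1)), div_lt_iff₀ (by positivity)]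
    have e3 : (b : ℝ) ^ S = (b : ℝ) ^ (S - 1) * b := by
      rw [← pow_succ]
      congr 1
      omega
    have e4 : 1 / (2 * (b : ℝ) ^ S) * (b : ℝ) ^ (S - 1) = 1 / (2 * b) := by
      rw [e3]
      field_simp
    rw [e4]
    exact h1
  have hz1 : 1 ≤ z₀ := by
    by_contra hcon
    have h3 : z₀ ≤ 0 := by omega
    have h4 : (z₀ : ℝ) ≤ 0 := by exact_mod_cast h3
    have h5 : (1 : ℝ) ≤ (b : ℝ) ^ s := one_le_pow₀ (by linarith)
    have h6 : 1 ≤ (b : ℝ) ^ s * x := by nlinarith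
    have h7 := le_abs_self ((b : ℝ) ^ s * x - z₀)
    linarith
  have hz2 : z₀ ≤ (b : ℤ) ^ (s + 1) := by
    have h3 : (z₀ : ℝ) < (b : ℝ) ^ (s + 1) + 1 := by
      have h4 := neg_abs_le ((b : ℝ) ^ s * x - z₀)
      have h5 : (b : ℝ) ^ s * x ≤ (b : ℝ) ^ s * b := by gcongr
      rw [pow_succ]
      linarith
    have h4 : z₀ < (b : ℤ) ^ (s + 1) + 1 := by exact_mod_cast h3
    omega
  obtain ⟨t, rfl⟩ := Int.eq_ofNat_of_zero_le (by omega : 0 ≤ z₀)
  refine ⟨t, by omega, by exact_mod_cast hz2, ?_⟩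
  rw [Int.cast_natCast] at h2
  set u := (t : ℝ) / (b : ℝ) ^ s with hu
  have hS1 : 1 / (2 * (b : ℝ) ^ S) ≤ 1 / 2 := by
    apply one_div_le_one_div_of_le (by norm_num)
    have : (1 : ℝ) ≤ (b : ℝ) ^ S := one_le_pow₀ (by linarith)
    linarith
  have h2' := abs_lt.1 h2
  have hu1 : 1 / 2 ≤ u := by linarith
  have hx0 : 0 < x := by linarith
  have hu0 : 0 < u := by linarith
  have e5 : 1 / (b : ℝ) ^ S = 2 * (1 / (2 * (b : ℝ) ^ S)) := by field_simp
  rw [← Real.log_div hu0.ne' hx0.ne', abs_le]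
  constructor
  · have h3 := Real.log_le_sub_one_of_pos (show 0 < x / u by positivity)
    rw [Real.log_div hx0.ne' hu0.ne'] at h3
    rw [Real.log_div hu0.ne' hx0.ne']
    have h4 : x / u - 1 ≤ 1 / (b : ℝ) ^ S := by
      rw [div_sub_one hu0.ne', div_le_iff₀ hu0, e5]
      have : 0 < 1 / (2 * (b : ℝ) ^ S) := by positivity
      nlinarith
    linarith
  · have h3 := Real.log_le_sub_one_of_pos (show 0 < u / x by positivity)
    have h4 : u / x - 1 ≤ 1 / (b : ℝ) ^ S := by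
      rw [div_sub_one hx0.ne', div_le_iff₀ hx0, e5]
      have : 0 < 1 / (2 * (b : ℝ) ^ S) := by positivity
      nlinarith
    linarith

lemma gapz {b : ℕ} (hb : 2 ≤ b) {z : ℝ} (hz : 0 < z) {s S : ℕ} (hsS : s < S)
    (h : ∀ k, s ≤ k → k < S → ¬ Far b (fr b z) k) :
    ∃ v : ℚ, HB b (b ^ (s + 1)) v ∧ |Real.log (v : ℝ) - Real.log z| ≤ 1 / (b : ℝ) ^ S := by
  have hb0 : (0 : ℝ) < b := by exact_mod_cast (by omega : 0 < b)
  obtain ⟨t, ht1, ht2, ht3⟩ := gapv hb (fr_ge hb hz) (fr_lt hb z) hsS h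
  refine ⟨(t : ℚ) / ((1 : ℕ) : ℚ) * (b : ℚ) ^ (Int.log b z - s), ⟨t, 1, _, ht1, ht2, le_rfl,
    Nat.one_le_pow _ _ (by omega), rfl⟩, ?_⟩
  have ht0 : (0 : ℝ) < t := by exact_mod_cast ht1
  have e1 : (((t : ℚ) / ((1 : ℕ) : ℚ) * (b : ℚ) ^ (Int.log b z - s) : ℚ) : ℝ) =
      (t : ℝ) / (b : ℝ) ^ s * (b : ℝ) ^ (Int.log b z) := by
    push_cast
    rw [zpow_sub₀ hb0.ne', zpow_natCast]
    field_simp
  have e2 : z = fr b z * (b : ℝ) ^ (Int.log b z) := by
    unfold fr
    field_simp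
  have h1 : 0 < fr b z := by linarith [fr_ge hb hz]
  have e4 : Real.log z = Real.log (fr b z) + Real.log ((b : ℝ) ^ (Int.log b z)) := by
    rw [← Real.log_mul h1.ne' (by positivity), ← e2]
  rw [e1, Real.log_mul (by positivity) (by positivity), e4]
  have e3 : Real.log ((t : ℝ) / (b : ℝ) ^ s) + Real.log ((b : ℝ) ^ (Int.log b z)) -
      (Real.log (fr b z) + Real.log ((b : ℝ) ^ (Int.log b z))) =
      Real.log ((t : ℝ) / (b : ℝ) ^ s) - Real.log (fr b z) := by ring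
  rw [e3]
  exact ht3

lemma irr_dist {b : ℕ} (hb : 2 ≤ b) {α : ℝ} (hα : 1 < α)
    (hirr : ∀ p : ℕ, 1 ≤ p → ∀ q : ℤ, α ^ p ≠ (b : ℝ) ^ q) (P : ℕ) (hP : 1 ≤ P) :
    ∃ κ : ℝ, 0 < κ ∧ ∀ k : ℤ, κ ≤ |k * Real.log b - P * Real.log α| := by
  have hb0 : (0 : ℝ) < b := by exact_mod_cast (by omega : 0 < b)
  have hb1 : (1 : ℝ) < b := by exact_mod_cast (by omega : 1 < b)
  have hlb : 0 < Real.log b := Real.log_pos hb1
  set θ := P * Real.log α / Real.log b with hθ
  have hθk : ∀ k : ℤ, θ ≠ k := by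
    intro k hk
    apply hirr P hP k
    rw [hθ, div_eq_iff hlb.ne'] at hk
    have h1 : Real.log (α ^ P) = Real.log ((b : ℝ) ^ k) := by
      rw [Real.log_pow, Real.log_zpow, hk]
    exact Real.log_injOn_pos (Set.mem_Ioi.2 (by positivity)) (Set.mem_Ioi.2 (by positivity)) h1
  refine ⟨|θ - round θ| * Real.log b, mul_pos (abs_pos.2 (sub_ne_zero.2 (hθk _))) hlb, fun k => ?_⟩
  have h1 := round_le θ k
  have h2 : |k * Real.log b - P * Real.log α| = |θ - k| * Real.log b := by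
    have e1 : k * Real.log b - P * Real.log α = -((θ - k) * Real.log b) := by
      rw [hθ]
      field_simp
      ring
    rw [e1, abs_neg, abs_mul, abs_of_pos hlb]
  rw [h2]
  exact mul_le_mul_of_nonneg_right h1 hlb.le

open Classical in
/-- the numbers `n < N` for which there are no digit changes between the places `s` and `S` of the
leading digits of `l α ^ n` -/
noncomputable def MM (b : ℕ) (l α : ℝ) (s S N : ℕ) : Finset ℕ :=
  (range N).filter (fun n => ∀ k, s ≤ k → k < S → ¬ Far b (fr b (l * α ^ n)) k)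

theorem few_gap {b : ℕ} (hb : 2 ≤ b) {α : ℝ} (hα : 1 < α)
    (hirr : ∀ p : ℕ, 1 ≤ p → ∀ q : ℤ, α ^ p ≠ (b : ℝ) ^ q) {δ : ℝ} (hδ : 0 < δ) :
    ∃ R : ℕ, 2 ≤ R ∧ ∀ l : ℝ, 0 < l → ∀ N s : ℕ, 1 ≤ s → R * s ≤ N →
      ((MM b l α s (R * s) N).card : ℝ) ≤ δ * N := by
  classical
  have hb0 : (0 : ℝ) < b := by exact_mod_cast (by omega : 0 < b)
  have hb1 : (1 : ℝ) < b := by exact_mod_cast (by omega : 1 < b)
  have hb2 : (2 : ℝ) ≤ b := by exact_mod_cast hb
  have hα0 : 0 < α := by linarith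
  set J := ⌈2 / δ⌉₊ + 1 with hJ
  have hJ1 : 1 ≤ J := by omega
  have hJδ : 2 < δ * (J + 1) := by
    have h1 := Nat.le_ceil (2 / δ)
    have h2 : (J : ℝ) = ⌈2 / δ⌉₊ + 1 := by rw [hJ]; push_cast; ring
    rw [div_le_iff₀ hδ] at h1
    rw [h2]
    nlinarith
  set q := J.factorial with hq
  have hq1 : 1 ≤ q := Nat.factorial_pos J
  set y₀ := padicValNat b.minFac b with hy₀
  have hy1 : 1 ≤ y₀ := by
    haveI : Fact b.minFac.Prime := ⟨Nat.minFac_prime (by omega)⟩
    exact one_le_padicValNat_of_dvd (by omega) (Nat.minFac_dvd b)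
  obtain ⟨κ, hκ0, hκ⟩ := irr_dist hb hα hirr (q * y₀) (Nat.one_le_iff_ne_zero.2 (by positivity))
  obtain ⟨R₁, hR₁⟩ := ((tendsto_pow_atTop_atTop_of_one_lt hb1).eventually_gt_atTop
    (2 * q * b / κ)).exists_forall_of_atTop
  set R := max R₁ (24 * q + J * (8 * b ^ 2 * q + 1)) with hR
  have hRa : 24 * q ≤ R := by
    have : 24 * q + J * (8 * b ^ 2 * q + 1) ≤ R := le_max_right _ _
    omega
  have hRb : J * (8 * b ^ 2 * q + 1) ≤ R := by
    have : 24 * q + J * (8 * b ^ 2 * q + 1) ≤ R := le_max_right _ _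
    omega
  have hRc : 2 * q * b / κ < (b : ℝ) ^ R := hR₁ R (le_max_left _ _)
  refine ⟨R, by omega, ?_⟩
  intro l hl N s hs hN
  by_contra hcon
  push Not at hcon
  set M := MM b l α s (R * s) N with hM
  have hsR : s < R * s := by
    have : 2 * s ≤ R * s := Nat.mul_le_mul_right s (by omega)
    omega
  -- the rational numbers close to `l α ^ n`
  have hv : ∀ n ∈ M, ∃ v : ℚ, HB b (b ^ (s + 1)) v ∧
      |Real.log (v : ℝ) - Real.log (l * α ^ n)| ≤ 1 / (b : ℝ) ^ (R * s) := by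
    intro n hn
    rw [hM, MM, mem_filter] at hn
    exact gapz hb (by positivity) hsR hn.2
  choose! v hv1 hv2 using hv
  set ε := 1 / (b : ℝ) ^ (R * s) with hε
  have hε0 : 0 < ε := by positivity
  have hMN : ∀ n ∈ M, n < N := by
    intro n hn
    rw [hM, MM, mem_filter, mem_range] at hn
    exact hn.1
  set X := N / J with hX
  have hXJ : J * X ≤ N := Nat.mul_div_le N J
  -- pigeonhole
  have hpig : ∀ x, 1 ≤ x → x ≤ X → ∃ c, 1 ≤ c ∧ c ≤ J ∧ ∃ m ∈ M, ∃ m' ∈ M, m = m' + c * x := by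
    intro x hx1 hxX
    have hmaps : ∀ a ∈ M ×ˢ range (J + 1), a.1 + a.2 * x ∈ range (2 * N) := by
      intro a ha
      rw [mem_product, mem_range] at ha
      rw [mem_range]
      have h1 := hMN a.1 ha.1
      have h2 : a.2 * x ≤ J * X := Nat.mul_le_mul (by omega) hxX
      omega
    have hcard : (range (2 * N)).card < (M ×ˢ range (J + 1)).card := by
      rw [card_range, card_product, card_range]
      have hN0 : (0 : ℝ) ≤ N := Nat.cast_nonneg _
      have h1 : 2 * (N : ℝ) ≤ δ * N * (J + 1) := by nlinarith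
      have h2 : δ * N * (J + 1) < M.card * (J + 1) := mul_lt_mul_of_pos_right hcon (by positivity)
      have h3 : 2 * (N : ℝ) < M.card * (J + 1) := by linarith
      exact_mod_cast h3
    obtain ⟨a, ha, a', ha', hne, heq⟩ := exists_ne_map_eq_of_card_lt_of_maps_to hcard hmaps
    rw [mem_product, mem_range] at ha ha'
    rcases lt_trichotomy a.2 a'.2 with h | h | h
    · refine ⟨a'.2 - a.2, by omega, by omega, a.1, ha.1, a'.1, ha'.1, ?_⟩
      obtain ⟨d, hd⟩ := Nat.exists_eq_add_of_lt h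
      rw [hd] at heq ⊢
      have e1 : a.2 + d + 1 - a.2 = d + 1 := by omega
      rw [e1]
      have e2 : (a.2 + d + 1) * x = a.2 * x + (d + 1) * x := by ring
      rw [e2] at heq
      omega
    · exfalso
      apply hne
      rw [h] at heq
      exact Prod.ext (by omega) h
    · refine ⟨a.2 - a'.2, by omega, by omega, a'.1, ha'.1, a.1, ha.1, ?_⟩
      obtain ⟨d, hd⟩ := Nat.exists_eq_add_of_lt h
      rw [hd] at heq ⊢
      have e1 : a'.2 + d + 1 - a'.2 = d + 1 := by omega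
      rw [e1]
      have e2 : (a'.2 + d + 1) * x = a'.2 * x + (d + 1) * x := by ring
      rw [e2] at heq
      omega
  -- the rational numbers close to `α ^ (q x)`
  set H := (b ^ (s + 1) * b ^ (s + 1)) ^ q with hH
  have hHpos : 1 ≤ H := Nat.one_le_iff_ne_zero.2 (by positivity)
  have hρ : ∀ x, 1 ≤ x ∧ x ≤ X → ∃ ρ : ℚ, HB b H ρ ∧
      |Real.log (ρ : ℝ) - q * x * Real.log α| ≤ 2 * q * ε := by
    rintro x ⟨hx1, hxX⟩
    obtain ⟨c, hc1, hcJ, m, hm, m', hm', hmm⟩ := hpig x hx1 hxX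
    have hcq : c ∣ q := Nat.dvd_factorial hc1 hcJ
    obtain ⟨d, hd⟩ := hcq
    have hdq : d ≤ q := by
      rw [hd]
      exact Nat.le_mul_of_pos_left d hc1
    refine ⟨(v m * (v m')⁻¹) ^ d, ((hv1 m hm).mul hb (hv1 m' hm').inv |>.pow hb d).mono ?_, ?_⟩
    · exact Nat.pow_le_pow_right (Nat.one_le_iff_ne_zero.2 (by positivity)) hdq
    · have hvm := (hv1 m hm).pos hb
      have hvm' := (hv1 m' hm').pos hb
      have hvmR : (0 : ℝ) < v m := by exact_mod_cast hvm
      have hvmR' : (0 : ℝ) < v m' := by exact_mod_cast hvm'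
      have h1 := hv2 m hm
      have h2 := hv2 m' hm'
      rw [Real.log_mul hl.ne' (by positivity), Real.log_pow] at h1 h2
      push_cast
      rw [Real.log_pow, Real.log_mul hvmR.ne' (by positivity), Real.log_inv]
      have e1 : (m : ℝ) = m' + c * x := by exact_mod_cast hmm
      have e2 : (q : ℝ) = c * d := by exact_mod_cast hd
      rw [e1] at h1
      have e3 : (d : ℝ) * (Real.log (v m) + -Real.log (v m')) - q * x * Real.log α =
          d * ((Real.log (v m) - (Real.log l + (m' + c * x) * Real.log α)) -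
            (Real.log (v m') - (Real.log l + m' * Real.log α))) := by
        rw [e2]
        ring
      rw [e3, abs_mul, Nat.abs_cast]
      have h3 := abs_sub (Real.log (v m) - (Real.log l + (m' + c * x) * Real.log α))
        (Real.log (v m') - (Real.log l + m' * Real.log α))
      have h4 : (d : ℝ) ≤ q := by exact_mod_cast hdq
      calc (d : ℝ) * |(Real.log (v m) - (Real.log l + (m' + c * x) * Real.log α)) -
            (Real.log (v m') - (Real.log l + m' * Real.log α))| ≤ q * (2 * ε) := by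
            apply mul_le_mul h4 (by linarith) (abs_nonneg _) (Nat.cast_nonneg _)
        _ = 2 * q * ε := by ring
  choose! ρ hρ1 hρ2 using hρ
  have hX1 : 8 * b ^ 2 * q * s < X := by
    rw [hX, Nat.lt_iff_add_one_le, Nat.le_div_iff_mul_le hJ1]
    calc (8 * b ^ 2 * q * s + 1) * J ≤ (8 * b ^ 2 * q * s + s) * J := by gcongr
      _ = J * (8 * b ^ 2 * q + 1) * s := by ring
      _ ≤ R * s := Nat.mul_le_mul_right s hRb
      _ ≤ N := hN
  have hX0 : 1 ≤ X := by omega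
  -- exact relations
  have hsmall : 12 * q * H ^ 3 < b ^ (R * s) := by
    have h1 : H ^ 3 = b ^ (6 * (s + 1) * q) := by
      rw [hH, ← pow_add, ← pow_mul, ← pow_mul]
      congr 1
      ring
    have h2 : 12 * q < b ^ (12 * q * s) := by
      calc 12 * q < 2 ^ (12 * q) := Nat.lt_two_pow_self
        _ ≤ b ^ (12 * q) := Nat.pow_le_pow_left hb _
        _ ≤ b ^ (12 * q * s) := Nat.pow_le_pow_right (by omega) (Nat.le_mul_of_pos_right _ hs)
    have h3 : b ^ (6 * (s + 1) * q) ≤ b ^ (12 * q * s) := by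
      apply Nat.pow_le_pow_right (by omega)
      nlinarith
    calc 12 * q * H ^ 3 < b ^ (12 * q * s) * b ^ (12 * q * s) := by
          rw [h1]
          exact Nat.mul_lt_mul_of_lt_of_le h2 h3 (by positivity)
      _ = b ^ (24 * q * s) := by rw [← pow_add]; congr 1; ring
      _ ≤ b ^ (R * s) := Nat.pow_le_pow_right (by omega) (Nat.mul_le_mul_right s hRa)
  have hpow : ∀ x, 1 ≤ x → x ≤ X → ρ x = ρ 1 ^ x := by
    intro x hx1
    induction x, hx1 using Nat.le_induction with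
    | base =>
      intro _
      rw [pow_one]
    | succ x hx ih =>
      intro hxX
      have h1 := ih (by omega)
      rw [pow_succ, ← h1]
      by_contra hne
      have hHx := hρ1 x ⟨hx, by omega⟩
      have hHx1 := hρ1 (x + 1) ⟨by omega, hxX⟩
      have hH1 := hρ1 1 ⟨le_rfl, hX0⟩
      have hpx := hHx.pos hb
      have hpx1 := hHx1.pos hb
      have hp1 := hH1.pos hb
      have hr : HB b (H * (H * H)) (ρ (x + 1) * (ρ x * ρ 1)⁻¹) := hHx1.mul hb (hHx.mul hb hH1).inv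
      have hrne : ρ (x + 1) * (ρ x * ρ 1)⁻¹ ≠ 1 := by
        intro h2
        apply hne
        field_simp at h2
        linarith
      have h2 := hr.sep hb hrne
      have hpxR : (0 : ℝ) < ρ x := by exact_mod_cast hpx
      have hpx1R : (0 : ℝ) < ρ (x + 1) := by exact_mod_cast hpx1
      have hp1R : (0 : ℝ) < ρ 1 := by exact_mod_cast hp1
      push_cast at h2
      rw [Real.log_mul hpx1R.ne' (by positivity), Real.log_inv, Real.log_mul hpxR.ne' hp1R.ne'] at h2
      have h3 := abs_le.1 (hρ2 x ⟨hx, by omega⟩)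
      have h4 := abs_le.1 (hρ2 (x + 1) ⟨by omega, hxX⟩)
      have h5 := abs_le.1 (hρ2 1 ⟨le_rfl, hX0⟩)
      push_cast at h4 h5
      have h6 : |Real.log (ρ (x + 1)) + -(Real.log (ρ x) + Real.log (ρ 1))| ≤ 6 * q * ε := by
        rw [abs_le]
        constructor <;> nlinarith
      have h7 : 1 / (2 * ((H : ℝ) * (H * H))) ≤ 6 * q * ε := h2.trans h6
      rw [hε, mul_one_div, div_le_div_iff₀ (by positivity) (by positivity), one_mul] at h7
      have h8 : ((12 * q * H ^ 3 : ℕ) : ℝ) < ((b ^ (R * s) : ℕ) : ℝ) := by exact_mod_cast hsmall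
      push_cast at h8
      nlinarith
  have hL : H ≤ 2 ^ (4 * b * q * s) := by
    have hb2' : b ≤ 2 ^ b := (Nat.lt_two_pow_self).le
    calc H = b ^ (2 * (s + 1) * q) := by
          rw [hH, ← pow_add, ← pow_mul]
          congr 1
          ring
      _ ≤ (2 ^ b) ^ (2 * (s + 1) * q) := Nat.pow_le_pow_left hb2' _
      _ = 2 ^ (b * (2 * (s + 1) * q)) := by rw [← pow_mul]
      _ ≤ 2 ^ (4 * b * q * s) := by
          apply Nat.pow_le_pow_right (by norm_num)
          have h1 : 2 * (s + 1) ≤ 4 * s := by omega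
          calc b * (2 * (s + 1) * q) ≤ b * (4 * s * q) := by gcongr
            _ = 4 * b * q * s := by ring
  have hXX := hρ1 X ⟨hX0, le_rfl⟩
  rw [hpow X hX0 le_rfl] at hXX
  obtain ⟨y, k, hy, hy1', hyb, hyk⟩ := pow_b hb ((hρ1 1 ⟨le_rfl, hX0⟩).pos hb) hXX hL (by
    calc 2 * b * (4 * b * q * s) = 8 * b ^ 2 * q * s := by ring
      _ < X := hX1)
  rw [← hy₀] at hy
  have hykR : (ρ 1 : ℝ) ^ y = (b : ℝ) ^ k := by
    have h0 := congrArg (fun r : ℚ => (r : ℝ)) hyk
    push_cast at h0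
    exact h0
  have h1 : (y : ℝ) * Real.log (ρ 1) = k * Real.log b := by
    rw [← Real.log_pow, hykR, Real.log_zpow]
  have h2 := hρ2 1 ⟨le_rfl, hX0⟩
  have h3 := hκ k
  push_cast at h2 h3
  rw [mul_one] at h2
  rw [← h1, ← hy] at h3
  have h4 : (y : ℝ) * Real.log (ρ 1) - q * y * Real.log α = y * (Real.log (ρ 1) - q * Real.log α) := by
    ring
  rw [h4, abs_mul, Nat.abs_cast] at h3
  have h5 : (y : ℝ) ≤ b := by exact_mod_cast hyb
  have h6 : κ ≤ b * (2 * q * ε) := h3.trans (mul_le_mul h5 h2 (abs_nonneg _) hb0.le)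
  have h7 : (b : ℝ) ^ R ≤ (b : ℝ) ^ (R * s) := pow_le_pow_right₀ hb1.le (Nat.le_mul_of_pos_right _ hs)
  rw [hε] at h6
  have hbR : (0 : ℝ) < (b : ℝ) ^ (R * s) := by positivity
  have h8 : κ * (b : ℝ) ^ (R * s) ≤ 2 * q * b := by
    have h9 : (b : ℝ) * (2 * q * (1 / (b : ℝ) ^ (R * s))) * (b : ℝ) ^ (R * s) = 2 * q * b := by
      field_simp
    calc κ * (b : ℝ) ^ (R * s) ≤ (b : ℝ) * (2 * q * (1 / (b : ℝ) ^ (R * s))) * (b : ℝ) ^ (R * s) := by
          gcongr
      _ = 2 * q * b := h9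
  rw [div_lt_iff₀ hκ0] at hRc
  nlinarith

end Pool.Agent.H607.Pw
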