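import Pool.Agent.H607.Sp.Far
import Pool.Agent.H607.Sp.Weights
import Mathlib

/-!
# Almost sure convergence from the correlations of distant good terms
-/

set_option autoImplicit false

namespace Pool.Agent.H607.Pw

open Finset Filter Topology MeasureTheory
open Pool.Agent.W206.ND (ee)
open Pool.Agent.H607 Pool.Agent.H607.Mix Pool.Agent.H607.Sp

lemma sum_nth (P : ℕ → Prop) [DecidablePred P] (f : ℕ → ℂ) (N : ℕ) :
    ∑ n ∈ (range N).filter P, f n = ∑ k ∈ range (Nat.count P N), f (Nat.nth P k) := by
  induction N with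
  | zero => simp
  | succ N ih =>
    rw [range_add_one, filter_insert, Nat.count_succ]
    by_cases h : P N
    · rw [if_pos h, if_pos h, sum_insert (by simp), ih, sum_range_succ, Nat.nth_count h]
      ring
    · rw [if_neg h, if_neg h, ih, add_zero]

section

variable {Ω : Type*} [MeasurableSpace Ω] {μ : Measure Ω} [IsProbabilityMeasure μ]

/-- almost sure convergence from the correlations of distant good terms -/
theorem as_good (u : ℕ → Ω → ℝ) (hu : ∀ n, Measurable (u n)) (P : ℕ → Prop) [DecidablePred P]
    (hP : Tendsto (fun N : ℕ => (((range N).filter (fun n => ¬ P n)).card : ℝ) / N) atTop (𝓝 0))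
    (h : ∀ᶠ n' : ℕ in atTop, P n' → ∀ n < n', (n' : ℝ) / (Real.log n') ^ 3 ≤ (n' : ℝ) - n →
      ‖∫ ω, ee (u n' ω - u n ω) ∂μ‖ ≤ 1 / (Real.log n') ^ 3) :
    ∀ᵐ ω ∂μ, Tendsto (fun N : ℕ => SS (fun n => u n ω) N / (N : ℂ)) atTop (𝓝 0) := by
  have hcount : ∀ N, Nat.count P N + ((range N).filter (fun n => ¬ P n)).card = N := by
    intro N
    rw [Nat.count_eq_card_filter_range, card_filter_add_card_filter_not, card_range]
  -- half of the terms are good
  obtain ⟨N₁, hN₁⟩ := eventually_atTop.1 ((hP.eventually_lt_const (show (0 : ℝ) < 1 / 2 by norm_num)).and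
    (eventually_ge_atTop 1))
  have hhalf : ∀ N, N₁ ≤ N → N ≤ 2 * Nat.count P N := by
    intro N hN
    obtain ⟨h1, h2⟩ := hN₁ N hN
    have hN0 : (0 : ℝ) < N := by exact_mod_cast h2
    rw [div_lt_iff₀ hN0] at h1
    have h3 : (((range N).filter (fun n => ¬ P n)).card : ℝ) * 2 < N := by linarith
    have h4 : ((range N).filter (fun n => ¬ P n)).card * 2 < N := by exact_mod_cast h3
    have := hcount N
    omega
  have hct : Tendsto (fun N => Nat.count P N) atTop atTop := by
    refine tendsto_atTop_atTop.2 fun B => ⟨max N₁ (2 * B), fun N hN => ?_⟩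
    have h1 := hhalf N ((le_max_left _ _).trans hN)
    have h2 := (le_max_right N₁ (2 * B)).trans hN
    omega
  have hinf : (Set.ofPred P).Infinite := by
    intro hfin
    obtain ⟨B, hB⟩ := (hct.eventually_gt_atTop hfin.toFinset.card).exists
    have h1 : Nat.count P B ≤ hfin.toFinset.card := by
      rw [Nat.count_eq_card_filter_range]
      apply card_le_card
      intro n hn
      rw [mem_filter] at hn
      rw [Set.Finite.mem_toFinset]
      exact hn.2
    omega
  set g := Nat.nth P with hg
  have hgP : ∀ k, P (g k) := fun k => Nat.nth_mem_of_infinite hinf k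
  have hgm : StrictMono g := Nat.nth_strictMono hinf
  have hgc : ∀ k, Nat.count P (g k) = k := fun k => Nat.count_nth_of_infinite hinf k
  have hgle : ∀ k, k ≤ g k := fun k => hgm.le_apply
  have hg2 : ∀ k, g k ≤ max N₁ (2 * k) := by
    intro k
    rcases le_or_gt N₁ (g k) with h1 | h1
    · have h2 := hhalf (g k) h1
      rw [hgc] at h2
      exact h2.trans (le_max_right _ _)
    · exact h1.le.trans (le_max_left _ _)
  obtain ⟨N₂, hN₂⟩ := eventually_atTop.1 h
  have hv := as_far (μ := μ) (fun k => u (g k)) (fun k => hu (g k)) (by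
    filter_upwards [pow_log_sqrt 2 1, tend_log.eventually_ge_atTop 16,
      (Real.tendsto_sqrt_atTop.comp tendsto_natCast_atTop_atTop).eventually_ge_atTop
        ((N₂ : ℝ) + N₁ + 3), eventually_ge_atTop 3] with K h1 h2 h3 h5 k' hk' k hk hR
    simp only [Function.comp_apply] at h3
    have hK0 : (0 : ℝ) < K := by exact_mod_cast (by omega : 0 < K)
    have hsq : Real.sqrt K * Real.sqrt K = K := Real.mul_self_sqrt hK0.le
    have hsq0 : 0 < Real.sqrt K := Real.sqrt_pos.2 hK0
    set L := Real.log K with hL
    have hL0 : 0 < L := by linarith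
    have hk'1 : Real.sqrt K ≤ k' := by
      have h6 : Real.sqrt K ≤ K / L ^ 2 := by
        rw [le_div_iff₀ (by positivity)]
        calc Real.sqrt K * L ^ 2 ≤ Real.sqrt K * Real.sqrt K := by
              gcongr
              linarith
          _ = K := hsq
      have h7 : (0 : ℝ) ≤ k := Nat.cast_nonneg _
      linarith
    have hgk' : (k' : ℝ) ≤ g k' := by exact_mod_cast hgle k'
    have hgN₂ : N₂ ≤ g k' := by
      have h7 : (N₂ : ℝ) ≤ g k' := by
        have : (0 : ℝ) ≤ N₁ := Nat.cast_nonneg _
        linarith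
      exact_mod_cast h7
    have hgK : (g k' : ℝ) ≤ 2 * K := by
      have h6 : g k' ≤ 2 * K := by
        refine (hg2 k').trans (max_le ?_ (by omega))
        have h7 : (N₁ : ℝ) ≤ k' := by
          have : (0 : ℝ) ≤ N₂ := Nat.cast_nonneg _
          linarith
        have h8 : N₁ ≤ k' := by exact_mod_cast h7
        omega
      exact_mod_cast h6
    have hg0 : (0 : ℝ) < g k' := by linarith
    have hlog : L / 2 ≤ Real.log (g k') := by
      have h6 := Real.log_le_log hsq0 (hk'1.trans hgk')
      rwa [Real.log_sqrt hK0.le] at h6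
    have hlog3 : (L / 2) ^ 3 ≤ (Real.log (g k')) ^ 3 := by gcongr
    have hlog0 : 0 < Real.log (g k') := by linarith
    have h9 := hN₂ (g k') hgN₂ (hgP k') (g k) (hgm hk) (by
      have h10 : (k' : ℝ) - k ≤ (g k' : ℝ) - g k := by
        obtain ⟨d, hd⟩ := Nat.exists_eq_add_of_lt hk
        have h11 : ∀ d, g k + d ≤ g (k + d) := by
          intro d
          induction d with
          | zero => simp
          | succ d ih =>
            have := hgm (show k + d < k + (d + 1) by omega)
            omega
        have h12 := h11 (d + 1)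
        have h13 : (g k : ℝ) + (d + 1 : ℕ) ≤ g (k + (d + 1)) := by exact_mod_cast h12
        rw [hd]
        push_cast at h13 ⊢
        have h14 : k + d + 1 = k + (d + 1) := by omega
        rw [h14]
        linarith
      refine le_trans ?_ (hR.trans h10)
      rw [div_le_div_iff₀ (by positivity) (by positivity)]
      calc (g k' : ℝ) * L ^ 2 ≤ (2 * K) * L ^ 2 := by gcongr
        _ ≤ K * (L / 2) ^ 3 := by
            have h15 : 2 * L ^ 2 ≤ (L / 2) ^ 3 := by
              have h16 : (L / 2) ^ 3 = L ^ 2 * (L / 8) := by ring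
              rw [h16]
              nlinarith [sq_nonneg L]
            nlinarith
        _ ≤ K * (Real.log (g k')) ^ 3 := by gcongr)
    refine h9.trans ?_
    apply one_div_le_one_div_of_le (by positivity)
    refine le_trans ?_ hlog3
    have h16 : (L / 2) ^ 3 = L ^ 2 * (L / 8) := by ring
    rw [h16]
    nlinarith [sq_nonneg L])
  filter_upwards [hv] with ω hω
  have h1 : Tendsto (fun N : ℕ => ‖SS (fun k => u (g k) ω) (Nat.count P N) / (Nat.count P N : ℂ)‖ +
      (((range N).filter (fun n => ¬ P n)).card : ℝ) / N) atTop (𝓝 0) := by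
    have h2 := (hω.norm.comp hct).add hP
    rw [norm_zero, add_zero] at h2
    exact h2
  rw [tendsto_zero_iff_norm_tendsto_zero]
  refine squeeze_zero' (Eventually.of_forall fun N => norm_nonneg _) ?_ h1
  filter_upwards [eventually_ge_atTop 1, hct.eventually_ge_atTop 1] with N hN hc
  have hN0 : (0 : ℝ) < N := by exact_mod_cast hN
  have hc0 : (0 : ℝ) < (Nat.count P N : ℝ) := by exact_mod_cast hc
  have hcN : (Nat.count P N : ℝ) ≤ N := by
    have := hcount N
    exact_mod_cast (by omega : Nat.count P N ≤ N)
  have e1 : SS (fun n => u n ω) N = SS (fun k => u (g k) ω) (Nat.count P N) +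
      ∑ n ∈ (range N).filter (fun n => ¬ P n), ee (u n ω) := by
    unfold SS
    rw [← sum_nth P (fun n => ee (u n ω)) N, sum_filter_add_sum_filter_not]
  have e2 : ‖∑ n ∈ (range N).filter (fun n => ¬ P n), ee (u n ω)‖ ≤
      ((range N).filter (fun n => ¬ P n)).card := by
    refine (norm_sum_le _ _).trans ?_
    refine (sum_le_sum fun n _ => (ee_norm _).le).trans ?_
    simp
  rw [norm_div, norm_div, Complex.norm_natCast, Complex.norm_natCast, e1]
  calc ‖SS (fun k => u (g k) ω) (Nat.count P N) +
      ∑ n ∈ (range N).filter (fun n => ¬ P n), ee (u n ω)‖ / N ≤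
      (‖SS (fun k => u (g k) ω) (Nat.count P N)‖ + ((range N).filter (fun n => ¬ P n)).card) / N := by
        gcongr
        exact (norm_add_le _ _).trans (add_le_add le_rfl e2)
    _ = ‖SS (fun k => u (g k) ω) (Nat.count P N)‖ / N + ((range N).filter (fun n => ¬ P n)).card / N := by
        rw [add_div]
    _ ≤ _ := by gcongr

end

end Pool.Agent.H607.Pw
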