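import Mathlib

/-!
# Heights of rational numbers up to powers of `b`
-/

set_option autoImplicit false

namespace Pool.Agent.H607.Pw

open Finset Filter Topology

/-- `r` is, up to a power of `b`, a quotient of two natural numbers which are at most `H` -/
def HB (b H : ℕ) (r : ℚ) : Prop :=
  ∃ (A B : ℕ) (e : ℤ), 1 ≤ A ∧ A ≤ H ∧ 1 ≤ B ∧ B ≤ H ∧ r = (A : ℚ) / B * (b : ℚ) ^ e

lemma HB.pos {b H : ℕ} (hb : 2 ≤ b) {r : ℚ} (h : HB b H r) : 0 < r := by
  obtain ⟨A, B, e, hA, -, hB, -, rfl⟩ := h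
  have h1 : (0 : ℚ) < A := by exact_mod_cast hA
  have h2 : (0 : ℚ) < B := by exact_mod_cast hB
  have h3 : (0 : ℚ) < b := by exact_mod_cast (by omega : 0 < b)
  positivity

lemma HB.mul {b H H' : ℕ} (hb : 2 ≤ b) {r r' : ℚ} (h : HB b H r) (h' : HB b H' r') :
    HB b (H * H') (r * r') := by
  obtain ⟨A, B, e, hA, hA', hB, hB', rfl⟩ := h
  obtain ⟨C, D, f, hC, hC', hD, hD', rfl⟩ := h'
  have h3 : (b : ℚ) ≠ 0 := by exact_mod_cast (by omega : b ≠ 0)
  refine ⟨A * C, B * D, e + f, by nlinarith, Nat.mul_le_mul hA' hC', by nlinarith,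
    Nat.mul_le_mul hB' hD', ?_⟩
  rw [zpow_add₀ h3]
  push_cast
  ring

lemma HB.inv {b H : ℕ} {r : ℚ} (h : HB b H r) : HB b H r⁻¹ := by
  obtain ⟨A, B, e, hA, hA', hB, hB', rfl⟩ := h
  refine ⟨B, A, -e, hB, hB', hA, hA', ?_⟩
  rw [zpow_neg, mul_inv, inv_div]

lemma HB.mono {b H H' : ℕ} {r : ℚ} (h : HB b H r) (hH : H ≤ H') : HB b H' r := by
  obtain ⟨A, B, e, hA, hA', hB, hB', rfl⟩ := h
  exact ⟨A, B, e, hA, hA'.trans hH, hB, hB'.trans hH, rfl⟩

lemma HB.one {b H : ℕ} (hH : 1 ≤ H) : HB b H 1 := ⟨1, 1, 0, le_rfl, hH, le_rfl, hH, by simp⟩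

lemma HB.pow {b H : ℕ} (hb : 2 ≤ b) {r : ℚ} (h : HB b H r) (k : ℕ) : HB b (H ^ k) (r ^ k) := by
  induction k with
  | zero =>
    rw [pow_zero, pow_zero]
    exact HB.one le_rfl
  | succ k ih =>
    rw [pow_succ, pow_succ]
    exact ih.mul hb h

/-- different rational numbers are not too close -/
lemma HB.sep {b H : ℕ} (hb : 2 ≤ b) {r : ℚ} (h : HB b H r) (h1 : r ≠ 1) :
    1 / (2 * (H : ℝ)) ≤ |Real.log (r : ℝ)| := by
  have key : ∀ r : ℚ, HB b H r → 1 < r → 1 / (2 * (H : ℝ)) ≤ Real.log (r : ℝ) := by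
    intro r h hr
    obtain ⟨A, B, e, hA, hA', hB, hB', hr'⟩ := h
    have hH : (1 : ℚ) ≤ H := by exact_mod_cast hA.trans hA'
    have hH0 : (0 : ℚ) < H := by linarith
    have hAq : (1 : ℚ) ≤ A := by exact_mod_cast hA
    have hBq : (1 : ℚ) ≤ B := by exact_mod_cast hB
    have hbq : (0 : ℚ) < b := by exact_mod_cast (by omega : 0 < b)
    have h2 : 1 + 1 / (H : ℚ) ≤ r := by
      rcases le_or_gt 0 e with he | he
      · obtain ⟨e', rfl⟩ := Int.eq_ofNat_of_zero_le he
        rw [zpow_natCast] at hr'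
        have h3 : r = ((A * b ^ e' : ℕ) : ℚ) / B := by
          rw [hr']
          push_cast
          ring
        have h4 : B < A * b ^ e' := by
          rw [h3, one_lt_div (by linarith)] at hr
          exact_mod_cast hr
        have h5 : ((B : ℚ) + 1) / B ≤ r := by
          rw [h3]
          apply div_le_div_of_nonneg_right _ (by linarith)
          exact_mod_cast h4
        have h6 : ((B : ℚ) + 1) / B = 1 + 1 / B := by field_simp
        have h7 : 1 / (H : ℚ) ≤ 1 / B := one_div_le_one_div_of_le (by linarith) (by exact_mod_cast hB')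
        linarith
      · obtain ⟨e', he'⟩ := Int.eq_ofNat_of_zero_le (show 0 ≤ -e by omega)
        have he2 : e = -(e' : ℤ) := by omega
        rw [he2, zpow_neg, zpow_natCast] at hr'
        have hden : (0 : ℚ) < ((B * b ^ e' : ℕ) : ℚ) := by
          push_cast
          positivity
        have h3 : r = (A : ℚ) / ((B * b ^ e' : ℕ) : ℚ) := by
          rw [hr']
          push_cast
          field_simp
        have h4 : B * b ^ e' < A := by
          rw [h3, one_lt_div hden] at hr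
          exact_mod_cast hr
        have h5 : (((B * b ^ e' : ℕ) : ℚ) + 1) / ((B * b ^ e' : ℕ) : ℚ) ≤ r := by
          rw [h3]
          apply div_le_div_of_nonneg_right _ hden.le
          exact_mod_cast h4
        have h6 : (((B * b ^ e' : ℕ) : ℚ) + 1) / ((B * b ^ e' : ℕ) : ℚ) =
            1 + 1 / ((B * b ^ e' : ℕ) : ℚ) := by
          rw [add_div, div_self hden.ne']
        have h7 : 1 / (H : ℚ) ≤ 1 / ((B * b ^ e' : ℕ) : ℚ) :=
          one_div_le_one_div_of_le hden (by exact_mod_cast (h4.le.trans hA'))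
        linarith
    have h2R : 1 + 1 / (H : ℝ) ≤ (r : ℝ) := by
      have h8 : ((1 + 1 / (H : ℚ) : ℚ) : ℝ) ≤ (r : ℝ) := Rat.cast_le.2 h2
      push_cast at h8
      exact h8
    have hHR : (1 : ℝ) ≤ H := by exact_mod_cast hH
    have hH0' : 0 < 1 / (H : ℝ) := by positivity
    have h3 := Real.one_sub_inv_le_log_of_pos (show 0 < 1 + 1 / (H : ℝ) by linarith)
    have h4 := Real.log_le_log (show 0 < 1 + 1 / (H : ℝ) by linarith) h2R
    have h5 : 1 - (1 + 1 / (H : ℝ))⁻¹ = 1 / (H + 1) := by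
      field_simp
      ring
    have h6 : 1 / (2 * (H : ℝ)) ≤ 1 / (H + 1) := one_div_le_one_div_of_le (by linarith) (by linarith)
    linarith
  have hr0 := h.pos hb
  rcases lt_or_gt_of_ne h1 with hlt | hgt
  · have h2 := key r⁻¹ h.inv (by rwa [one_lt_inv₀ hr0])
    push_cast at h2
    rw [Real.log_inv] at h2
    exact h2.trans (neg_le_abs _)
  · exact (key r h hgt).trans (le_abs_self _)

lemma num_le {a c : ℕ} (ha : 1 ≤ a) (hc : 1 ≤ c) {s : ℚ} (h : s = (a : ℚ) / c) :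
    s.num ≤ a ∧ (s.den : ℤ) ≤ c := by
  have hc' : (c : ℤ) ≠ 0 := by exact_mod_cast (by omega : c ≠ 0)
  have h1 : s = Rat.divInt (a : ℤ) (c : ℤ) := by
    rw [h, Rat.divInt_eq_div]
    push_cast
    rfl
  have h2 : s.num ∣ (a : ℤ) := by
    rw [h1]
    exact Rat.num_dvd _ hc'
  have h3 : (s.den : ℤ) ∣ (c : ℤ) := by
    rw [h1]
    exact Rat.den_dvd _ _
  exact ⟨Int.le_of_dvd (by exact_mod_cast ha) h2, Int.le_of_dvd (by exact_mod_cast hc) h3⟩

/-- A rational number with a large power of small height is a root of a power of `b`. -/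
theorem pow_b {b : ℕ} (hb : 2 ≤ b) {ρ : ℚ} (hρ : 0 < ρ) {X H L : ℕ} (h : HB b H (ρ ^ X)) (hL : H ≤ 2 ^ L)
    (hX : 2 * b * L < X) : ∃ (y : ℕ) (k : ℤ), y = padicValNat b.minFac b ∧ 1 ≤ y ∧ y ≤ b ∧
      ρ ^ y = (b : ℚ) ^ k := by
  obtain ⟨A, B, e, hA, hA', hB, hB', hr⟩ := h
  set p := b.minFac with hp
  have hpp : p.Prime := Nat.minFac_prime (by omega)
  haveI : Fact p.Prime := ⟨hpp⟩
  set y := padicValNat p b with hy
  have hb0 : (b : ℚ) ≠ 0 := by exact_mod_cast (by omega : b ≠ 0)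
  have hbpos : (0 : ℚ) < b := by exact_mod_cast (by omega : 0 < b)
  have hA0 : (A : ℚ) ≠ 0 := by exact_mod_cast (by omega : A ≠ 0)
  have hB0 : (B : ℚ) ≠ 0 := by exact_mod_cast (by omega : B ≠ 0)
  have hval : ∀ m : ℕ, 1 ≤ m → 2 ^ (padicValNat p m) ≤ m := by
    intro m hm
    calc 2 ^ (padicValNat p m) ≤ p ^ (padicValNat p m) := Nat.pow_le_pow_left hpp.two_le _
      _ ≤ m := Nat.le_of_dvd hm pow_padicValNat_dvd
  have hy1 : 1 ≤ y := one_le_padicValNat_of_dvd (by omega) (Nat.minFac_dvd b)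
  have hyb : y ≤ b := (Nat.lt_two_pow_self).le.trans (hval b (by omega))
  refine ⟨y, padicValRat p ρ, rfl, hy1, hyb, ?_⟩
  set w := padicValRat p ρ with hw
  set σ := ρ ^ y * (b : ℚ) ^ (-w) with hσ
  have hσ0 : 0 < σ := by positivity
  have hσX : σ ^ X = ((A : ℚ) / B) ^ y * (b : ℚ) ^ (e * y - w * X) := by
    rw [hσ, mul_pow, ← pow_mul, mul_comm y X, pow_mul, hr, mul_pow, ← zpow_natCast ((b : ℚ) ^ (-w)) X,
      ← zpow_mul, ← zpow_natCast ((b : ℚ) ^ e) y, ← zpow_mul, mul_assoc, ← zpow_add₀ hb0]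
    congr 2
    ring
  set f : ℤ := e * y - w * X with hf
  have hvσ : padicValRat p σ = 0 := by
    rw [hσ, padicValRat.mul (by positivity) (by positivity), padicValRat.pow, padicValRat.zpow,
      ← hw, padicValRat.of_nat, ← hy]
    ring
  have hfv : f = padicValNat p B - padicValNat p A := by
    have h1 : padicValRat p (σ ^ X) = 0 := by
      rw [padicValRat.pow, hvσ, mul_zero]
    rw [hσX, padicValRat.mul (by positivity) (by positivity), padicValRat.pow,
      padicValRat.div hA0 hB0, padicValRat.zpow, padicValRat.of_nat, padicValRat.of_nat,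
      padicValRat.of_nat, ← hy] at h1
    have h2 : (y : ℤ) * (f - (padicValNat p B - padicValNat p A)) = 0 := by linarith
    rcases mul_eq_zero.1 h2 with h3 | h3
    · omega
    · linarith
  have hvA : padicValNat p A ≤ L :=
    (Nat.pow_le_pow_iff_right (by norm_num)).1 ((hval A hA).trans (hA'.trans hL))
  have hvB : padicValNat p B ≤ L :=
    (Nat.pow_le_pow_iff_right (by norm_num)).1 ((hval B hB).trans (hB'.trans hL))
  -- numerator and denominator
  have hσ2 : σ ^ X = ((A ^ y * b ^ (padicValNat p B) : ℕ) : ℚ) / ((B ^ y * b ^ (padicValNat p A) : ℕ) : ℚ) := by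
    rw [hσX, hfv, zpow_sub₀ hb0, zpow_natCast, zpow_natCast]
    push_cast
    rw [div_pow]
    field_simp
  have hb2 : b ≤ 2 ^ b := (Nat.lt_two_pow_self).le
  have hbd : ∀ C v : ℕ, C ≤ H → v ≤ L → C ^ y * b ^ v ≤ 2 ^ (2 * b * L) := by
    intro C v hC hv
    calc C ^ y * b ^ v ≤ (2 ^ L) ^ y * (2 ^ b) ^ L :=
          Nat.mul_le_mul (Nat.pow_le_pow_left (hC.trans hL) _)
            ((Nat.pow_le_pow_left hb2 _).trans (Nat.pow_le_pow_right (by positivity) hv))
      _ = 2 ^ (L * y + b * L) := by rw [← pow_mul, ← pow_mul, ← pow_add]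
      _ ≤ 2 ^ (2 * b * L) := by
          apply Nat.pow_le_pow_right (by norm_num)
          nlinarith
  obtain ⟨h1, h2⟩ := num_le (Nat.succ_le_of_lt (by positivity)) (Nat.succ_le_of_lt (by positivity)) hσ2
  rw [Rat.num_pow] at h1
  rw [Rat.den_pow] at h2
  have h3 : σ.num ^ X ≤ 2 ^ (2 * b * L) := h1.trans (by exact_mod_cast hbd A _ hA' hvB)
  have h4 : (σ.den : ℤ) ^ X ≤ 2 ^ (2 * b * L) := by
    have h5 : ((σ.den ^ X : ℕ) : ℤ) ≤ 2 ^ (2 * b * L) := h2.trans (by exact_mod_cast hbd B _ hB' hvA)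
    exact_mod_cast h5
  have hlt : (2 : ℤ) ^ (2 * b * L) < 2 ^ X := pow_lt_pow_right₀ (by norm_num) hX
  have hnum : σ.num = 1 := by
    have h5 : 0 < σ.num := Rat.num_pos.2 hσ0
    by_contra hne
    have h6 : (2 : ℤ) ^ X ≤ σ.num ^ X := pow_le_pow_left₀ (by norm_num) (by omega) _
    linarith
  have hden : σ.den = 1 := by
    have h5 : 0 < σ.den := σ.den_pos
    by_contra hne
    have h6 : (2 : ℤ) ^ X ≤ (σ.den : ℤ) ^ X := pow_le_pow_left₀ (by norm_num) (by omega) _
    linarith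
  have hσ1 : σ = 1 := by
    rw [← Rat.num_div_den σ, hnum, hden]
    norm_num
  rw [hσ, zpow_neg] at hσ1
  have h5 : (b : ℚ) ^ w ≠ 0 := by positivity
  field_simp at hσ1
  exact hσ1

end Pool.Agent.H607.Pw
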