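import Pool.Agent.H607.Pw.Gap
import Pool.Agent.H607.Sp.Weights
import Mathlib

/-!
# Many digit changes among the leading digits of `l α ^ n`, for most `n`
-/

set_option autoImplicit false

namespace Pool.Agent.H607.Pw

open Finset Filter Topology
open Pool.Agent.H607.Sp (Far GG GG_mono tend_log tend_loglog pow_log_sqrt)

theorem many {b : ℕ} (hb : 2 ≤ b) {α : ℝ} (hα : 1 < α)
    (hirr : ∀ p : ℕ, 1 ≤ p → ∀ q : ℤ, α ^ p ≠ (b : ℝ) ^ q) {δ : ℝ} (hδ : 0 < δ) :
    ∃ R : ℕ, 2 ≤ R ∧ ∀ l : ℝ, 0 < l → ∀ N D T : ℕ, R ^ (T + 1) ≤ D → D ≤ N →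
      (((range N).filter (fun n => 2 * GG b (fr b (l * α ^ n)) D < T)).card : ℝ) ≤ 2 * δ * N := by
  classical
  obtain ⟨R, hR2, hR⟩ := few_gap hb hα hirr hδ
  refine ⟨R, hR2, ?_⟩
  intro l hl N D T hRD hDN
  set Bad := (range N).filter (fun n => 2 * GG b (fr b (l * α ^ n)) D < T) with hBad
  rcases Nat.eq_zero_or_pos T with hT | hT
  · have : Bad = ∅ := by
      rw [hBad, filter_eq_empty_iff]
      intro n _
      omega
    rw [this, card_empty, Nat.cast_zero]
    positivity
  have hTR : (0 : ℝ) < T := by exact_mod_cast hT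
  have hM : ∀ t ∈ Icc 1 T, ((MM b l α (R ^ t) (R * R ^ t) N).card : ℝ) ≤ δ * N := by
    intro t ht
    rw [mem_Icc] at ht
    refine hR l hl N (R ^ t) (Nat.one_le_pow _ _ (by omega)) ?_
    calc R * R ^ t = R ^ (t + 1) := by rw [pow_succ]; ring
      _ ≤ R ^ (T + 1) := Nat.pow_le_pow_right (by omega) (by omega)
      _ ≤ N := hRD.trans hDN
  have hn : ∀ n ∈ Bad, T ≤ 2 * ((Icc 1 T).filter (fun t => n ∈ MM b l α (R ^ t) (R * R ^ t) N)).card := by
    intro n hn
    rw [hBad, mem_filter] at hn
    obtain ⟨hnN, hnG⟩ := hn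
    have h1 : ((Icc 1 T).filter (fun t => ¬ n ∈ MM b l α (R ^ t) (R * R ^ t) N)).card ≤
        GG b (fr b (l * α ^ n)) D := by
      have h2 : ∀ t ∈ (Icc 1 T).filter (fun t => ¬ n ∈ MM b l α (R ^ t) (R * R ^ t) N),
          ∃ k, R ^ t ≤ k ∧ k < R * R ^ t ∧ Far b (fr b (l * α ^ n)) k := by
        intro t ht
        rw [mem_filter] at ht
        by_contra hcon
        push Not at hcon
        apply ht.2
        rw [MM, mem_filter]
        exact ⟨hnN, hcon⟩
      choose! k hk1 hk2 hk3 using h2
      unfold GG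
      apply card_le_card_of_injOn k
      · intro t ht
        have ht' := ht
        rw [mem_coe, mem_filter, mem_Icc] at ht'
        rw [mem_coe, mem_filter, mem_range]
        refine ⟨(hk2 t ht).trans_le ?_, hk3 t ht⟩
        calc R * R ^ t = R ^ (t + 1) := by rw [pow_succ]; ring
          _ ≤ R ^ (T + 1) := Nat.pow_le_pow_right (by omega) (by omega)
          _ ≤ D := hRD
      · intro t ht t' ht' heq
        have key : ∀ t t', t ∈ (Icc 1 T).filter (fun t => ¬ n ∈ MM b l α (R ^ t) (R * R ^ t) N) →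
            t' ∈ (Icc 1 T).filter (fun t => ¬ n ∈ MM b l α (R ^ t) (R * R ^ t) N) → k t = k t' → ¬ t < t' := by
          intro t t' ht ht' heq hlt
          have h3 := hk2 t ht
          have h4 := hk1 t' ht'
          have h5 : R * R ^ t ≤ R ^ t' := by
            calc R * R ^ t = R ^ (t + 1) := by rw [pow_succ]; ring
              _ ≤ R ^ t' := Nat.pow_le_pow_right (by omega) (by omega)
          omega
        rcases lt_trichotomy t t' with h | h | h
        · exact absurd h (key t t' ht ht' heq)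
        · exact h
        · exact absurd h (key t' t ht' ht heq.symm)
    have h3 := card_filter_add_card_filter_not (s := Icc 1 T) (fun t => n ∈ MM b l α (R ^ t) (R * R ^ t) N)
    rw [Nat.card_Icc] at h3
    omega
  have hsum : (T : ℝ) * Bad.card ≤ 2 * (T * (δ * N)) := by
    have h1 : ∑ n ∈ Bad, T ≤ ∑ n ∈ Bad,
        2 * ((Icc 1 T).filter (fun t => n ∈ MM b l α (R ^ t) (R * R ^ t) N)).card := sum_le_sum hn
    have h2 : ∑ n ∈ Bad, ((Icc 1 T).filter (fun t => n ∈ MM b l α (R ^ t) (R * R ^ t) N)).card ≤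
        ∑ t ∈ Icc 1 T, (MM b l α (R ^ t) (R * R ^ t) N).card := by
      simp only [card_filter]
      rw [sum_comm]
      refine sum_le_sum fun t _ => ?_
      rw [← card_filter]
      exact card_le_card fun n hn => (mem_filter.1 hn).2
    rw [sum_const, smul_eq_mul, ← mul_sum] at h1
    have h3 : Bad.card * T ≤ 2 * ∑ t ∈ Icc 1 T, (MM b l α (R ^ t) (R * R ^ t) N).card := by omega
    have h4 : (Bad.card : ℝ) * T ≤ 2 * ∑ t ∈ Icc 1 T, ((MM b l α (R ^ t) (R * R ^ t) N).card : ℝ) := by
      exact_mod_cast h3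
    have h5 := sum_le_sum hM
    rw [sum_const, Nat.card_Icc, nsmul_eq_mul, Nat.add_sub_cancel] at h5
    linarith
  have h6 : (T : ℝ) * Bad.card ≤ T * (2 * δ * N) := by linarith
  exact le_of_mul_le_mul_left h6 hTR

/-- most `n` are good -/
theorem bad_density {b : ℕ} (hb : 2 ≤ b) {α : ℝ} (hα : 1 < α)
    (hirr : ∀ p : ℕ, 1 ≤ p → ∀ q : ℤ, α ^ p ≠ (b : ℝ) ^ q) {l : ℝ} (hl : 0 < l) {C : ℝ} (hC : 0 < C) :
    Tendsto (fun N : ℕ => (((range N).filter (fun n : ℕ => ¬ (C * Real.log n / Real.log (Real.log n) ≤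
      GG b (fr b (l * α ^ n)) ⌊(n : ℝ) / (Real.log n) ^ 4⌋₊))).card : ℝ) / N) atTop (𝓝 0) := by
  classical
  rw [Metric.tendsto_atTop]
  intro ε hε
  rw [← eventually_atTop (α := ℕ)]
  set δ := ε / 5 with hδ
  have hδ0 : 0 < δ := by positivity
  obtain ⟨R, hR2, hR⟩ := many hb hα hirr hδ0
  have hRR : (1 : ℝ) < R := by exact_mod_cast (by omega : 1 < R)
  have hlR : 0 < Real.log R := Real.log_pos hRR
  filter_upwards [pow_log_sqrt 4 (1 / δ), tend_log.eventually_ge_atTop (16 * Real.log R + 16),
    tend_loglog.eventually_ge_atTop (32 * C * Real.log R + 4),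
    (Real.tendsto_sqrt_atTop.comp tendsto_natCast_atTop_atTop).eventually_ge_atTop (2 / δ + 16),
    eventually_ge_atTop 3] with N h1 h2 h3 h4 h5
  simp only [Function.comp_apply] at h4
  set L := Real.log N with hL
  set t := Real.log L with ht
  have hN0 : (0 : ℝ) < N := by exact_mod_cast (by omega : 0 < N)
  have hN3 : (3 : ℝ) ≤ N := by exact_mod_cast h5
  have hL0 : 16 < L := by linarith
  have ht0 : 4 ≤ t := by
    have : 0 < 32 * C * Real.log R := by positivity
    linarith
  have hsq : Real.sqrt N * Real.sqrt N = N := Real.mul_self_sqrt hN0.le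
  have hsq0 : 0 < Real.sqrt N := Real.sqrt_pos.2 hN0
  have hsq16 : 16 ≤ Real.sqrt N := by
    have : 0 < 2 / δ := by positivity
    linarith
  set D := ⌊Real.sqrt N⌋₊ with hD
  have hD1 : (D : ℝ) ≤ Real.sqrt N := Nat.floor_le hsq0.le
  have hD2 : Real.sqrt N / 2 ≤ D := by
    have := Nat.lt_floor_add_one (Real.sqrt N)
    linarith
  have hDpos : (0 : ℝ) < D := by linarith
  have hlogsq : Real.log (Real.sqrt N) = L / 2 := by
    rw [Real.log_sqrt hN0.le]
  have hlogD : L / 4 ≤ Real.log D := by
    have h6 := Real.log_le_log (by positivity) hD2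
    rw [Real.log_div hsq0.ne' (by norm_num), hlogsq] at h6
    have := Real.log_two_lt_d9
    linarith
  -- the number of scales
  set m := Nat.log R D with hm
  have hD0 : D ≠ 0 := by
    intro h
    rw [h, Nat.cast_zero] at hDpos
    exact lt_irrefl _ hDpos
  have hm1 : R ^ m ≤ D := Nat.pow_log_le_self R hD0
  have hm2 : Real.log D ≤ (m + 1) * Real.log R := by
    have h6 : D < R ^ (m + 1) := Nat.lt_pow_succ_log_self (by omega) D
    have h7 : (D : ℝ) ≤ (R : ℝ) ^ (m + 1) := by exact_mod_cast h6.le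
    have h8 := Real.log_le_log hDpos h7
    rw [Real.log_pow] at h8
    push_cast at h8
    exact h8
  have hm3 : L / 4 ≤ (m + 1) * Real.log R := hlogD.trans hm2
  have hm4 : (2 : ℝ) ≤ m + 1 := by
    by_contra hcon
    push Not at hcon
    nlinarith
  have hm5 : 1 ≤ m := by
    have : (1 : ℝ) ≤ m := by linarith
    exact_mod_cast this
  set T := m - 1 with hT
  have hTm : T + 1 = m := by omega
  have hTR : (T : ℝ) = m - 1 := by
    rw [hT, Nat.cast_sub hm5]
    simp
  have hDN : D ≤ N := by
    have h6 : (D : ℝ) ≤ N := by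
      have : Real.sqrt N ≤ Real.sqrt N * Real.sqrt N := by nlinarith
      linarith
    exact_mod_cast h6
  have hbad := hR l hl N D T (by rw [hTm]; exact hm1) hDN
  -- inclusion
  have hsub : (range N).filter (fun n : ℕ => ¬ (C * Real.log n / Real.log (Real.log n) ≤
      GG b (fr b (l * α ^ n)) ⌊(n : ℝ) / (Real.log n) ^ 4⌋₊)) ⊆
      (range (⌊δ * N⌋₊ + 1)) ∪ (range N).filter (fun n => 2 * GG b (fr b (l * α ^ n)) D < T) := by
    intro n hn
    rw [mem_filter, mem_range] at hn
    obtain ⟨hnN, hnb⟩ := hn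
    push Not at hnb
    rw [mem_union, mem_range, mem_filter, mem_range]
    by_cases hnd : n < ⌊δ * N⌋₊ + 1
    · exact Or.inl hnd
    · right
      refine ⟨hnN, ?_⟩
      push Not at hnd
      have hn1 : δ * N ≤ n := by
        have h6 := Nat.lt_floor_add_one (δ * N)
        have h7 : ((⌊δ * N⌋₊ + 1 : ℕ) : ℝ) ≤ n := by exact_mod_cast hnd
        push_cast at h7
        linarith
      have hδs : 2 ≤ δ * Real.sqrt N := by
        have h6 : 2 / δ ≤ Real.sqrt N := by linarith
        rw [div_le_iff₀ hδ0] at h6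
        linarith
      have hn2 : Real.sqrt N ≤ n := by
        have h7 : δ * N = δ * Real.sqrt N * Real.sqrt N := by rw [mul_assoc, hsq]
        nlinarith
      have hnN' : (n : ℝ) ≤ N := by exact_mod_cast hnN.le
      have hn0 : (0 : ℝ) < n := by linarith
      have hln1 : L / 2 ≤ Real.log n := by
        have := Real.log_le_log hsq0 hn2
        rwa [hlogsq] at this
      have hln2 : Real.log n ≤ L := Real.log_le_log hn0 hnN'
      have hln0 : 0 < Real.log n := by linarith
      have hlln : t / 2 ≤ Real.log (Real.log n) := by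
        have h6 := Real.log_le_log (by positivity) hln1
        rw [Real.log_div (by linarith) (by norm_num)] at h6
        have := Real.log_two_lt_d9
        linarith
      have hD3 : D ≤ ⌊(n : ℝ) / (Real.log n) ^ 4⌋₊ := by
        apply Nat.floor_le_floor
        rw [le_div_iff₀ (by positivity)]
        have h6 : (Real.log n) ^ 4 ≤ L ^ 4 := by gcongr
        have h7 : L ^ 4 ≤ δ * Real.sqrt N := by
          rw [one_div, inv_mul_eq_div, div_le_iff₀ hδ0] at h1
          linarith
        calc Real.sqrt N * (Real.log n) ^ 4 ≤ Real.sqrt N * (δ * Real.sqrt N) := by gcongr; linarith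
          _ = δ * N := by
              rw [mul_comm δ, ← mul_assoc, hsq]
              ring
          _ ≤ n := hn1
      have h8 : (GG b (fr b (l * α ^ n)) D : ℝ) < C * Real.log n / Real.log (Real.log n) := by
        refine lt_of_le_of_lt ?_ hnb
        exact_mod_cast GG_mono b _ hD3
      have h9 : C * Real.log n / Real.log (Real.log n) ≤ 2 * C * L / t := by
        rw [div_le_div_iff₀ (by linarith) (by linarith)]
        have h10 : C * Real.log n * t ≤ C * L * t := by gcongr
        have h11 : C * L * t ≤ C * L * (2 * Real.log (Real.log n)) := by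
          gcongr
          linarith
        linarith
      have h10 : 4 * C * L / t ≤ T := by
        rw [div_le_iff₀ (by linarith), hTR]
        have h11 : L / 4 ≤ (m + 1) * Real.log R := hm3
        have h12 : L / 8 ≤ (m - 1) * Real.log R := by nlinarith
        have h13 : 32 * C * Real.log R ≤ t := by linarith
        have h14 : 0 ≤ (m : ℝ) - 1 := by linarith
        have h15 : 4 * C * L ≤ 4 * C * (8 * ((m - 1) * Real.log R)) := by
          apply mul_le_mul_of_nonneg_left _ (by positivity)
          linarith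
        have h16 : 4 * C * (8 * (((m : ℝ) - 1) * Real.log R)) = (m - 1) * (32 * C * Real.log R) := by ring
        rw [h16] at h15
        exact h15.trans (mul_le_mul_of_nonneg_left h13 h14)
      have h11 : 4 * C * L / t = 2 * (2 * C * L / t) := by ring
      have h12 : (2 : ℝ) * GG b (fr b (l * α ^ n)) D < T := by linarith
      exact_mod_cast h12
  have h6 := (card_le_card hsub).trans (card_union_le _ _)
  rw [card_range] at h6
  have h7 : (((range N).filter (fun n : ℕ => ¬ (C * Real.log n / Real.log (Real.log n) ≤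
      GG b (fr b (l * α ^ n)) ⌊(n : ℝ) / (Real.log n) ^ 4⌋₊))).card : ℝ) ≤ (⌊δ * N⌋₊ + 1 : ℝ) +
      ((range N).filter (fun n => 2 * GG b (fr b (l * α ^ n)) D < T)).card := by exact_mod_cast h6
  have h8 : (⌊δ * N⌋₊ : ℝ) ≤ δ * N := Nat.floor_le (by positivity)
  rw [dist_zero_right, Real.norm_of_nonneg (by positivity), div_lt_iff₀ hN0]
  have h9 : 1 < δ * N := by
    have h10 : 2 / δ ≤ Real.sqrt N := by linarith
    rw [div_le_iff₀ hδ0] at h10
    nlinarith
  have h10 : ε = 5 * δ := by rw [hδ]; ring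
  rw [h10]
  linarith

end Pool.Agent.H607.Pw
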