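import Pool.Agent.H607.Pw.Many
import Pool.Agent.H607.Pw.Good
import Mathlib

/-!
# The correlations of `t n * y`, where `t n` is asymptotic to `lam α ^ n`
-/

set_option autoImplicit false

namespace Pool.Agent.H607.Pw

open Finset Filter Topology MeasureTheory ProbabilityTheory
open Pool.Agent.W206.ND (ee)
open Pool.Agent.H607 Pool.Agent.H607.Mix Pool.Agent.H607.Sp

lemma psi_small {A A' : ℝ} (hA : 0 < A) (hA' : 0 < A') : ∀ᶠ n : ℕ in atTop, ∀ m : ℕ, A' * n ≤ m →
    (m : ℝ) ≤ A * n → psi 1 2 m + 2 ≤ 16 * Real.log n / (Real.log (Real.log n)) ^ 2 := by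
  filter_upwards [tend_log.eventually_ge_atTop (Real.exp ((2 : ℕ) : ℝ) + 2 * |Real.log A'| + 2),
    tend_loglog.eventually_ge_atTop 4, eventually_ge_atTop (⌈A⌉₊ + 2), eventually_ge_atTop 3,
    tend_log.eventually (pow_log_le 2 1)]
    with n h1 h2 h3 h4 h5 m hm1 hm2
  set L := Real.log n with hL
  set t := Real.log L with ht
  have hn0 : (0 : ℝ) < n := by exact_mod_cast (by omega : 0 < n)
  have hnA : A + 1 ≤ n := by
    have h6 := Nat.le_ceil A
    have h7 : ((⌈A⌉₊ + 2 : ℕ) : ℝ) ≤ n := by exact_mod_cast h3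
    push_cast at h7
    linarith
  have hexp : 0 < Real.exp ((2 : ℕ) : ℝ) := Real.exp_pos _
  have habs := abs_nonneg (Real.log A')
  have hL0 : 2 ≤ L := by linarith
  have hm0 : (0 : ℝ) < (m : ℝ) + 1 := by positivity
  have hup : Real.log ((m : ℝ) + 1) ≤ 2 * L := by
    have h6 : (m : ℝ) + 1 ≤ (n : ℝ) ^ 2 := by nlinarith
    have h7 := Real.log_le_log hm0 h6
    rw [Real.log_pow] at h7
    exact_mod_cast h7
  have hlo : L - |Real.log A'| ≤ Real.log ((m : ℝ) + 1) := by
    have h6 : A' * n ≤ (m : ℝ) + 1 := by linarith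
    have h7 := Real.log_le_log (by positivity) h6
    rw [Real.log_mul hA'.ne' hn0.ne'] at h7
    have := neg_abs_le (Real.log A')
    linarith
  have hLL1 : LL 2 m ≤ 3 * L := by
    unfold LL
    linarith
  have hLL2 : L / 2 ≤ LL 2 m := by
    have h6 : |Real.log A'| ≤ L / 2 := by linarith
    have h7 : L / 2 ≤ Real.log ((m : ℝ) + 1) := by linarith
    unfold LL
    exact h7.trans (le_add_of_nonneg_right (Real.exp_pos _).le)
  have hlogLL : t / 2 ≤ Real.log (LL 2 m) := by
    have h6 := Real.log_le_log (by linarith) hLL2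
    rw [Real.log_div (by linarith) (by norm_num)] at h6
    have := Real.log_two_lt_d9
    linarith
  have hlp : 0 < Real.log (LL 2 m) := by linarith
  unfold psi
  rw [pow_one]
  have h6 : LL 2 m / Real.log (LL 2 m) ^ 2 ≤ 12 * L / t ^ 2 := by
    rw [div_le_div_iff₀ (by positivity) (by positivity)]
    have h7 : (t / 2) ^ 2 ≤ (Real.log (LL 2 m)) ^ 2 := by gcongr
    calc LL 2 m * t ^ 2 ≤ (3 * L) * t ^ 2 := by gcongr
      _ = 12 * L * (t / 2) ^ 2 := by ring
      _ ≤ 12 * L * (Real.log (LL 2 m)) ^ 2 := by gcongr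
  have h7 : 2 ≤ 4 * L / t ^ 2 := by
    rw [le_div_iff₀ (by positivity)]
    linarith
  have h8 : 16 * L / t ^ 2 = 12 * L / t ^ 2 + 4 * L / t ^ 2 := by ring
  linarith

/-- the good exponents -/
def Gd (b : ℕ) (l α : ℝ) (n : ℕ) : Prop :=
  200 * (b : ℝ) ^ 2 * Real.log n / Real.log (Real.log n) ≤
      GG b (fr b (l * α ^ n)) ⌊(n : ℝ) / (Real.log n) ^ 4⌋₊

theorem pcorr {b : ℕ} (hb : 2 ≤ b) {α : ℝ} (hα : 1 < α) {lam : ℝ} (hlam : lam ≠ 0) {C₀ η : ℝ} (hη : 0 < η)
    (t : ℕ → ℝ) (ht : ∀ n, |t n - lam * α ^ n| ≤ C₀ * (α ^ n * Real.exp (-(η * n))))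
    [∀ i, NeZero (wg 1 2 i)] :
    ∀ᶠ n' : ℕ in atTop, Gd b |lam| α n' → ∀ n < n', (n' : ℝ) / (Real.log n') ^ 3 ≤ (n' : ℝ) - n →
      ch (unif (wg 1 2)) (YY (wg 1 2) b) (t n' - t n) ≤ 1 / (Real.log n') ^ 3 := by
  classical
  have hb0 : (0 : ℝ) < b := by exact_mod_cast (by omega : 0 < b)
  have hb1 : (1 : ℝ) < b := by exact_mod_cast (by omega : 1 < b)
  have hb2 : (2 : ℝ) ≤ b := by exact_mod_cast hb
  have hα0 : 0 < α := by linarith
  have hl0 : 0 < |lam| := abs_pos.2 hlam
  have hC₀ : 0 ≤ C₀ := by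
    have h1 := ht 0
    have h2 := abs_nonneg (t 0 - lam * α ^ 0)
    simp only [pow_zero, mul_one, CharP.cast_eq_zero, mul_zero, neg_zero, Real.exp_zero] at h1
    linarith [abs_nonneg (t 0 - lam)]
  set a := Real.log α with ha
  have ha0 : 0 < a := Real.log_pos hα
  set B := Real.log b with hB
  have hB0 : 0 < B := Real.log_pos hb1
  set m₀ := min η a with hm₀
  have hm0 : 0 < m₀ := lt_min hη ha0
  set C₁ := 1 + 2 * C₀ / |lam| with hC₁
  have hC1 : 1 ≤ C₁ := by
    have : 0 ≤ 2 * C₀ / |lam| := by positivity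
    linarith
  have hA : 0 < 2 * a / B := by positivity
  have hA' : 0 < a / (2 * B) := by positivity
  filter_upwards [psi_small hA hA', tend_log.eventually_ge_atTop (2 * B / m₀ + 2 * B / a + 1),
    tend_loglog.eventually_ge_atTop 1,
    (Real.tendsto_sqrt_atTop.comp tendsto_natCast_atTop_atTop).eventually_ge_atTop
      (2 * (Real.log C₁ + Real.log (4 * b)) / m₀ + 2 * (abs (Real.log |lam|) + B) / a + 1),
    pow_log_sqrt 3 1, eventually_ge_atTop 3] with n' h1 h2 h3 h4 h5 h6 hgd n hn hR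
  simp only [Function.comp_apply] at h4
  have hn0 : (0 : ℝ) < n' := by exact_mod_cast (by omega : 0 < n')
  have hn1 : (1 : ℝ) ≤ n' := by exact_mod_cast (by omega : 1 ≤ n')
  set L := Real.log n' with hL
  set τ := Real.log L with hτ
  have hL1 : 1 < L := by
    have : 0 < 2 * B / m₀ := by positivity
    have : 0 < 2 * B / a := by positivity
    linarith
  have hL0 : 0 < L := by linarith
  have hsq : Real.sqrt n' * Real.sqrt n' = n' := Real.mul_self_sqrt hn0.le
  have hsq0 : 0 < Real.sqrt n' := Real.sqrt_pos.2 hn0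
  have hsqn : Real.sqrt n' ≤ n' := by
    have : 1 ≤ Real.sqrt n' := Real.one_le_sqrt.2 hn1
    nlinarith
  have hnL3 : Real.sqrt n' ≤ n' / L ^ 3 := by
    rw [le_div_iff₀ (by positivity)]
    calc Real.sqrt n' * L ^ 3 ≤ Real.sqrt n' * Real.sqrt n' := by
          gcongr
          linarith
      _ = n' := hsq
  have hlogC : 0 ≤ Real.log C₁ := Real.log_nonneg hC1
  have hlog4b : 0 ≤ Real.log (4 * b) := Real.log_nonneg (by linarith)
  -- the top place
  set z := |lam| * α ^ n' with hz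
  have hz0 : 0 < z := by positivity
  have hlogz : Real.log z = Real.log |lam| + n' * a := by
    rw [hz, Real.log_mul hl0.ne' (by positivity), Real.log_pow]
  set I := Int.log b z with hI
  have hI1 : (b : ℝ) ^ I ≤ z := Int.zpow_log_le_self (by omega) hz0
  have hI2 : z < (b : ℝ) ^ (I + 1) := Int.lt_zpow_succ_log_self (by omega) z
  have hI1' : (I : ℝ) * B ≤ Real.log |lam| + n' * a := by
    have := Real.log_le_log (by positivity) hI1
    rwa [Real.log_zpow, hlogz] at this
  have hI2' : Real.log |lam| + n' * a ≤ (I + 1) * B := by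
    have := Real.log_le_log hz0 hI2.le
    rw [Real.log_zpow, hlogz] at this
    push_cast at this
    exact this
  have hsmall : abs (Real.log |lam|) + B ≤ n' * a / 2 := by
    have h7 : 2 * (abs (Real.log |lam|) + B) / a ≤ n' := by
      have : 0 ≤ 2 * (Real.log C₁ + Real.log (4 * b)) / m₀ := by positivity
      linarith
    rw [div_le_iff₀ ha0] at h7
    linarith
  have hneg := neg_abs_le (Real.log |lam|)
  have hle := le_abs_self (Real.log |lam|)
  have hIlo : a / (2 * B) * n' ≤ I := by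
    have h7 : n' * a / 2 ≤ I * B := by linarith
    rw [div_mul_eq_mul_div, div_le_iff₀ (by positivity)]
    linarith
  have hIhi : (I : ℝ) ≤ 2 * a / B * n' := by
    rw [div_mul_eq_mul_div, le_div_iff₀ hB0]
    nlinarith
  have hIpos : 0 < I := by
    have h7 : (0 : ℝ) < I := lt_of_lt_of_le (by positivity) hIlo
    exact_mod_cast h7
  obtain ⟨In, hIn⟩ := Int.eq_ofNat_of_zero_le hIpos.le
  rw [hIn] at hIlo hIhi hI1 hI2
  rw [Int.cast_natCast] at hIlo hIhi
  rw [zpow_natCast] at hI1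
  have hI2n : z < (b : ℝ) ^ (In + 1) := by
    have h7 : (b : ℝ) ^ ((In : ℤ) + 1) = (b : ℝ) ^ (In + 1) := by exact_mod_cast rfl
    rwa [h7] at hI2
  -- the depth
  set D := ⌊(n' : ℝ) / L ^ 4⌋₊ with hD
  have hD1 : (D : ℝ) ≤ n' / L ^ 4 := Nat.floor_le (by positivity)
  have hL34 : (n' : ℝ) / L ^ 4 = n' / L ^ 3 / L := by
    rw [div_div, ← pow_succ]
  have hDI : D ≤ In := by
    have h7 : (D : ℝ) ≤ In := by
      refine hD1.trans (le_trans ?_ hIlo)
      have h8 : 2 * B / a ≤ L := by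
        have : 0 < 2 * B / m₀ := by positivity
        linarith
      rw [div_le_iff₀ ha0] at h8
      have h9 : L ≤ L ^ 4 := by
        calc L = L ^ 1 := (pow_one L).symm
          _ ≤ L ^ 4 := pow_le_pow_right₀ hL1.le (by norm_num)
      rw [div_mul_eq_mul_div, div_le_div_iff₀ (by positivity) (by positivity)]
      nlinarith
    exact_mod_cast h7
  have hDB : D * B + Real.log C₁ + Real.log (4 * b) ≤ m₀ * ((n' : ℝ) - n) := by
    have h7 : D * B ≤ m₀ / 2 * (n' / L ^ 3) := by
      have h8 : 2 * B / m₀ ≤ L := by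
        have : 0 < 2 * B / a := by positivity
        linarith
      rw [div_le_iff₀ hm0] at h8
      have h9 : (D : ℝ) * L ≤ n' / L ^ 3 := by
        rw [hL34, le_div_iff₀ hL0] at hD1
        exact hD1
      have h10 : (D : ℝ) * (2 * B) ≤ D * (L * m₀) := mul_le_mul_of_nonneg_left h8 (Nat.cast_nonneg _)
      have h11 : (D : ℝ) * L * m₀ ≤ n' / L ^ 3 * m₀ := mul_le_mul_of_nonneg_right h9 hm0.le
      linarith
    have h8 : Real.log C₁ + Real.log (4 * b) ≤ m₀ / 2 * (n' / L ^ 3) := by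
      have h9 : 2 * (Real.log C₁ + Real.log (4 * b)) / m₀ ≤ n' / L ^ 3 := by
        have : 0 ≤ 2 * (abs (Real.log |lam|) + B) / a := by positivity
        linarith
      rw [div_le_iff₀ hm0] at h9
      linarith
    have h9 : m₀ * (n' / L ^ 3) ≤ m₀ * ((n' : ℝ) - n) := mul_le_mul_of_nonneg_left hR hm0.le
    linarith
  -- the difference of the sequence
  set T := t n' - t n with hT
  have hnn : (n : ℝ) ≤ n' := by exact_mod_cast hn.le
  have herr : |T - lam * α ^ n'| ≤ C₁ * |lam| * α ^ n' * Real.exp (-(m₀ * ((n' : ℝ) - n))) := by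
    have e1 : T - lam * α ^ n' = (t n' - lam * α ^ n') - (t n - lam * α ^ n) - lam * α ^ n := by
      rw [hT]
      ring
    have h7 : |T - lam * α ^ n'| ≤ |t n' - lam * α ^ n'| + |t n - lam * α ^ n| + |lam * α ^ n| := by
      rw [e1]
      exact (abs_sub _ _).trans (add_le_add (abs_sub _ _) le_rfl)
    have hE0 := Real.exp_pos (-(m₀ * ((n' : ℝ) - n)))
    have h8 : Real.exp (-(η * n')) ≤ Real.exp (-(m₀ * ((n' : ℝ) - n))) := by
      apply Real.exp_le_exp.2
      have h9 : m₀ ≤ η := min_le_left _ _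
      have h10 : (0 : ℝ) ≤ n := Nat.cast_nonneg _
      nlinarith
    have h9 : α ^ n = α ^ n' * Real.exp (-(a * ((n' : ℝ) - n))) := by
      have h10 : α ^ n = Real.exp (a * n) := by
        rw [mul_comm, Real.exp_nat_mul, Real.exp_log hα0]
      have h11 : α ^ n' = Real.exp (a * n') := by
        rw [mul_comm, Real.exp_nat_mul, Real.exp_log hα0]
      rw [h10, h11, ← Real.exp_add]
      congr 1
      ring
    have h10 : α ^ n ≤ α ^ n' * Real.exp (-(m₀ * ((n' : ℝ) - n))) := by
      rw [h9]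
      apply mul_le_mul_of_nonneg_left _ (by positivity)
      apply Real.exp_le_exp.2
      have h11 : m₀ ≤ a := min_le_right _ _
      nlinarith
    have h11 : Real.exp (-(η * n)) ≤ 1 := Real.exp_le_one_iff.2 (by
      have : 0 ≤ η * n := by positivity
      linarith)
    have h12 : |t n' - lam * α ^ n'| ≤ C₀ * (α ^ n' * Real.exp (-(m₀ * ((n' : ℝ) - n)))) :=
      (ht n').trans (by gcongr)
    have h13 : |t n - lam * α ^ n| ≤ C₀ * (α ^ n' * Real.exp (-(m₀ * ((n' : ℝ) - n)))) := by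
      refine (ht n).trans ?_
      apply mul_le_mul_of_nonneg_left _ hC₀
      calc α ^ n * Real.exp (-(η * n)) ≤ α ^ n * 1 := by gcongr
        _ ≤ _ := by rw [mul_one]; exact h10
    have h14 : |lam * α ^ n| ≤ |lam| * (α ^ n' * Real.exp (-(m₀ * ((n' : ℝ) - n)))) := by
      rw [abs_mul, abs_of_pos (by positivity : 0 < α ^ n)]
      gcongr
    have e2 : C₁ * |lam| = |lam| + 2 * C₀ := by
      rw [hC₁]
      field_simp
    rw [e2]
    linarith
  have hexp : C₁ * Real.exp (-(m₀ * ((n' : ℝ) - n))) * (b : ℝ) ^ D ≤ 1 / (4 * b) := by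
    have e1 : C₁ * Real.exp (-(m₀ * ((n' : ℝ) - n))) * (b : ℝ) ^ D =
        Real.exp (Real.log C₁ + -(m₀ * ((n' : ℝ) - n)) + D * B) := by
      rw [Real.exp_add, Real.exp_add, Real.exp_log (by linarith), Real.exp_nat_mul, Real.exp_log hb0]
    have e2 : 1 / (4 * (b : ℝ)) = Real.exp (-Real.log (4 * b)) := by
      rw [Real.exp_neg, Real.exp_log (by positivity), one_div]
    rw [e1, e2]
    apply Real.exp_le_exp.2
    linarith
  -- the set of places
  set K := (range D).filter (Far b (fr b z)) with hK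
  set s := K.image (fun k => In - k) with hs
  have hinj : Set.InjOn (fun k => In - k) (K : Set ℕ) := by
    intro k hk k' hk' h
    rw [mem_coe, hK, mem_filter, mem_range] at hk hk'
    simp only at h
    omega
  have h7 := ch_le_gen (bt_indep (wg 1 2)) (bt_meas (wg 1 2)) (YY_summable (wg 1 2) b hb) 0 s T
  rw [hs, prod_image hinj] at h7
  set Ψ := psi 1 2 In + 2 with hΨ
  have hΨ1 : Ψ ≤ 16 * L / τ ^ 2 := h1 In hIlo hIhi
  have hΨ0 : 0 < Ψ := by
    have := psi_pos (α := 1) (β := 2) (by norm_num) In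
    linarith
  have h8 : ∀ k ∈ K, ch (unif (wg 1 2)) (bt (wg 1 2) (In - k)) (T * rr b (In - k)) ^ 2 ≤
      Real.exp (-(1 / (2 * (b : ℝ) ^ 2 * Ψ))) := by
    intro k hk
    rw [hK, mem_filter, mem_range] at hk
    obtain ⟨hk1, hk2⟩ := hk
    rw [bt_ch]
    have hw' := wg_two 1 2 (In - k)
    have hwΨ := wg_le (α := 1) (β := 2) le_rfl (by norm_num) In (In - k) (by omega)
    have hw0 : (0 : ℝ) < wg 1 2 (In - k) := by exact_mod_cast (by omega : 0 < wg 1 2 (In - k))
    refine (coin_le_exp (wg 1 2 (In - k)) b hw' hb _ ?_).trans ?_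
    · have h9 : In - k ≠ 0 := by omega
      have e1 : rr b (In - k) = 1 / (b : ℝ) ^ (In - k) := by
        unfold rr
        rw [if_neg h9]
      have e2 : (b : ℝ) ^ In = (b : ℝ) ^ (In - k) * (b : ℝ) ^ k := by
        rw [← pow_add]
        congr 1
        omega
      have e3 : (b : ℝ) ^ k * fr b z = z * rr b (In - k) := by
        unfold fr
        rw [← hI, hIn, zpow_natCast, e1, e2]
        field_simp
      have h10 : |(T - lam * α ^ n') * rr b (In - k)| ≤ 1 / (4 * b) := by
        rw [abs_mul, abs_of_nonneg (rr_nonneg b _)]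
        have h11 : rr b (In - k) ≤ (b : ℝ) ^ D / z := by
          rw [e1, div_le_div_iff₀ (by positivity) hz0, one_mul]
          calc z ≤ (b : ℝ) ^ (In + 1) := hI2n.le
            _ ≤ (b : ℝ) ^ (D + (In - k)) := pow_le_pow_right₀ hb1.le (by omega)
            _ = (b : ℝ) ^ D * (b : ℝ) ^ (In - k) := pow_add _ _ _
        calc |T - lam * α ^ n'| * rr b (In - k) ≤
            (C₁ * |lam| * α ^ n' * Real.exp (-(m₀ * ((n' : ℝ) - n)))) * ((b : ℝ) ^ D / z) := by
              gcongr
              exact rr_nonneg b _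
          _ = C₁ * Real.exp (-(m₀ * ((n' : ℝ) - n))) * (b : ℝ) ^ D := by
              rw [hz]
              field_simp
          _ ≤ 1 / (4 * b) := hexp
      intro z'
      have h11 : 1 / (2 * (b : ℝ)) = 1 / (4 * (b : ℝ)) + 1 / (4 * (b : ℝ)) := by
        field_simp
        ring
      rcases lt_or_gt_of_ne hlam with hneg' | hpos
      · have h12 := hk2 (-z')
        have e4 : lam * α ^ n' = -z := by
          rw [hz, abs_of_neg hneg']
          ring
        have e5 : T * rr b (In - k) - z' = (T - lam * α ^ n') * rr b (In - k) -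
            ((b : ℝ) ^ k * fr b z - ((-z' : ℤ) : ℝ)) := by
          rw [e3, e4]
          push_cast
          ring
        rw [e5, abs_sub_comm]
        have h13 := abs_sub_abs_le_abs_sub ((b : ℝ) ^ k * fr b z - ((-z' : ℤ) : ℝ))
          ((T - lam * α ^ n') * rr b (In - k))
        linarith
      · have h12 := hk2 z'
        have e4 : lam * α ^ n' = z := by
          rw [hz, abs_of_pos hpos]
        have e5 : T * rr b (In - k) - z' = ((b : ℝ) ^ k * fr b z - z') -
            (-((T - lam * α ^ n') * rr b (In - k))) := by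
          rw [e3, e4]
          ring
        rw [e5]
        have h13 := abs_sub_abs_le_abs_sub ((b : ℝ) ^ k * fr b z - z')
          (-((T - lam * α ^ n') * rr b (In - k)))
        rw [abs_neg] at h13
        linarith
    · apply Real.exp_le_exp.2
      apply neg_le_neg
      apply one_div_le_one_div_of_le (by positivity)
      gcongr
  have h9 := prod_le_prod (fun k _ => by positivity) h8
  rw [prod_const] at h9
  have h10 : ch (unif (wg 1 2)) (YY (wg 1 2) b) T ^ 2 ≤ (1 / L ^ 3) ^ 2 := by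
    have e1 : (YY (wg 1 2) b) = fun ω => 0 + ∑' i, bt (wg 1 2) i ω * rr b i := by
      funext ω
      rw [zero_add]
      rfl
    rw [e1]
    refine h7.trans (h9.trans ?_)
    rw [← Real.exp_nat_mul]
    have h11 : (1 / L ^ 3) ^ 2 = Real.exp (-(6 * τ)) := by
      rw [Real.exp_neg, show 6 * τ = ((6 : ℕ) : ℝ) * τ by norm_num, Real.exp_nat_mul, hτ,
        Real.exp_log hL0, one_div_pow, one_div, ← pow_mul]
    rw [h11]
    apply Real.exp_le_exp.2
    have h12 : (K.card : ℝ) = GG b (fr b z) D := rfl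
    rw [h12, mul_neg, mul_one_div]
    apply neg_le_neg
    rw [le_div_iff₀ (by positivity)]
    have h13 : 200 * (b : ℝ) ^ 2 * L / τ ≤ GG b (fr b z) D := hgd
    refine le_trans ?_ h13
    rw [le_div_iff₀ (by linarith)]
    have h14 : Ψ * τ ^ 2 ≤ 16 * L := by
      rw [le_div_iff₀ (by positivity)] at hΨ1
      exact hΨ1
    calc 6 * τ * (2 * (b : ℝ) ^ 2 * Ψ) * τ = 12 * (b : ℝ) ^ 2 * (Ψ * τ ^ 2) := by ring
      _ ≤ 12 * (b : ℝ) ^ 2 * (16 * L) := by gcongr
      _ ≤ 200 * (b : ℝ) ^ 2 * L := by nlinarith [sq_nonneg (b : ℝ), mul_nonneg (sq_nonneg (b : ℝ)) hL0.le]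
  have h11 := abs_le_of_sq_le_sq h10 (by positivity)
  unfold ch at h11 ⊢
  rwa [abs_of_nonneg (norm_nonneg _)] at h11

/-- **Almost sure equidistribution.** -/
theorem as_pow {b : ℕ} (hb : 2 ≤ b) {α : ℝ} (hα : 1 < α)
    (hirr : ∀ p : ℕ, 1 ≤ p → ∀ q : ℤ, α ^ p ≠ (b : ℝ) ^ q) {lam : ℝ} (hlam : lam ≠ 0) {C₀ η : ℝ}
    (hη : 0 < η) (t c : ℕ → ℝ) (ht : ∀ n, |t n - lam * α ^ n| ≤ C₀ * (α ^ n * Real.exp (-(η * n))))
    [∀ i, NeZero (wg 1 2 i)] :
    ∀ᵐ ω ∂(unif (wg 1 2)), Tendsto (fun N : ℕ =>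
      SS (fun n => t n * YY (wg 1 2) b ω + c n) N / (N : ℂ)) atTop (𝓝 0) := by
  classical
  have hl0 : 0 < |lam| := abs_pos.2 hlam
  refine as_good (fun n ω => t n * YY (wg 1 2) b ω + c n)
    (fun n => ((YY_meas (wg 1 2) b hb).const_mul (t n)).add_const _) (Gd b |lam| α) ?_ ?_
  · have h1 := bad_density hb hα hirr hl0 (C := 200 * (b : ℝ) ^ 2) (by positivity)
    unfold Gd
    exact h1
  · filter_upwards [pcorr hb hα hlam hη t ht] with n' h1 hgd n hn hR
    have h2 := h1 hgd n hn hR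
    have e1 : ∀ ω, ee ((t n' * YY (wg 1 2) b ω + c n') - (t n * YY (wg 1 2) b ω + c n)) =
        ee (c n' - c n) * ee ((t n' - t n) * YY (wg 1 2) b ω) := by
      intro ω
      rw [← ee_add]
      congr 1
      ring
    simp only [e1]
    rw [integral_const_mul, norm_mul, ee_norm, one_mul]
    exact h2

end Pool.Agent.H607.Pw
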